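import Mathlib

set_option autoImplicit false

namespace Pool.Agent.Helper93

open Polynomial

/-- Cyclotomic polynomials of `p`-power order are irreducible over `ℤ_p`. -/
lemma cyclotomic_irreducible_padicInt (p : ℕ) [hp : Fact p.Prime] (n : ℕ) :
    Irreducible (cyclotomic (p ^ (n + 1)) ℤ_[p]) := by
  have hE := cyclotomic_prime_pow_comp_X_add_one_isEisensteinAt p n
  set f : ℤ[X] := (cyclotomic (p ^ (n + 1)) ℤ).comp (X + 1) with hf
  have hfm : f.Monic := by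
    rw [hf, show (X + 1 : ℤ[X]) = X + C 1 by simp]
    refine (cyclotomic.monic _ ℤ).comp (monic_X_add_C 1) fun h => ?_
    rw [natDegree_X_add_C] at h
    exact zero_ne_one h.symm
  have hmap : f.map (Int.castRingHom ℤ_[p]) = (cyclotomic (p ^ (n + 1)) ℤ_[p]).comp (X + 1) := by
    rw [hf, map_comp, map_cyclotomic]; simp
  have hprime : (Ideal.span {(p : ℤ_[p])}).IsPrime := by
    rw [← PadicInt.maximalIdeal_eq_span_p]; infer_instance
  have hE' : (f.map (Int.castRingHom ℤ_[p])).IsEisensteinAt (Ideal.span {(p : ℤ_[p])}) := by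
    refine Monic.isEisensteinAt_of_mem_of_notMem (hfm.map _) hprime.ne_top ?_ ?_
    · intro i hi
      rw [hfm.natDegree_map] at hi
      have h1 := hE.mem hi
      rw [Ideal.submodule_span_eq, Ideal.mem_span_singleton] at h1
      obtain ⟨c, hc⟩ := h1
      rw [coeff_map, hc, Ideal.mem_span_singleton]
      exact ⟨(c : ℤ_[p]), by simp⟩
    · have h1 : f.coeff 0 = p := by
        rw [hf, coeff_zero_eq_eval_zero, eval_comp, cyclotomic_prime_pow_eq_geom_sum hp.out]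
        simp [eval_finsetSum]
      rw [coeff_map, h1, Ideal.span_singleton_pow, Ideal.mem_span_singleton]
      intro h
      have h2 : (p : ℤ_[p]) ≠ 0 := by exact_mod_cast hp.out.ne_zero
      have h3 : ((Int.castRingHom ℤ_[p]) (p : ℤ)) = (p : ℤ_[p]) * 1 := by simp
      rw [h3, pow_two] at h
      have h4 := (mul_dvd_mul_iff_left h2).1 h
      exact PadicInt.prime_p.not_isUnit (isUnit_of_dvd_one h4)
  have hirr := hE'.irreducible hprime (hfm.map _).isPrimitive (by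
    rw [hfm.natDegree_map, hf, natDegree_comp, show (X + 1 : ℤ[X]) = X + C 1 by simp,
      natDegree_X_add_C, natDegree_cyclotomic, mul_one]
    exact Nat.totient_pos.2 (pow_pos hp.out.pos _))
  rw [hmap] at hirr
  have h5 : (cyclotomic (p ^ (n + 1)) ℤ_[p]).comp (X + 1)
      = algEquivAevalXAddC (1 : ℤ_[p]) (cyclotomic (p ^ (n + 1)) ℤ_[p]) := by
    rw [algEquivAevalXAddC_apply, comp, aeval_def]
    simp
  rw [h5] at hirr
  exact (MulEquiv.irreducible_iff (algEquivAevalXAddC (1 : ℤ_[p]))).1 hirr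

/-- Cyclotomic polynomials of `p`-power order are irreducible over `ℚ_p`. -/
lemma cyclotomic_irreducible_padic (p : ℕ) [hp : Fact p.Prime] (n : ℕ) :
    Irreducible (cyclotomic (p ^ (n + 1)) ℚ_[p]) := by
  have h := (Monic.irreducible_iff_irreducible_map_fraction_map (K := ℚ_[p])
    (cyclotomic.monic (p ^ (n + 1)) ℤ_[p])).1 (cyclotomic_irreducible_padicInt p n)
  rwa [map_cyclotomic] at h

/-- Linear relations among the `p ^ (m + 1)`-th roots of unity over `ℚ_p`. -/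
lemma coeff_eq_of_sum_eq_zero {p : ℕ} [hp : Fact p.Prime] {E : Type*} [Field E] [Algebra ℚ_[p] E]
    {m : ℕ} {ζ : E} (hζ : IsPrimitiveRoot ζ (p ^ (m + 1))) (a : ZMod (p ^ (m + 1)) → ℤ)
    (h : ∑ i : ZMod (p ^ (m + 1)), (a i : E) * ζ ^ i.val = 0)
    (i j : ZMod (p ^ (m + 1))) (hij : i.val % p ^ m = j.val % p ^ m) : a i = a j := by
  have : CharZero E := charZero_of_injective_algebraMap (algebraMap ℚ_[p] E).injective
  have : NeZero (p ^ (m + 1)) := ⟨pow_ne_zero _ hp.out.ne_zero⟩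
  set A : ℚ_[p][X] := ∑ i : ZMod (p ^ (m + 1)), C (a i : ℚ_[p]) * X ^ i.val with hA
  have hAcoeff : ∀ i : ZMod (p ^ (m + 1)), A.coeff i.val = a i := by
    intro i
    rw [hA, finsetSum_coeff]
    simp only [coeff_C_mul, coeff_X_pow]
    rw [Finset.sum_eq_single i]
    · simp
    · intro b _ hb
      have : i.val ≠ b.val := fun hh => hb (ZMod.val_injective _ hh).symm
      simp [this]
    · simp
  have hdeg : A.degree < ((p ^ (m + 1) : ℕ) : WithBot ℕ) := by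
    rw [hA]
    refine lt_of_le_of_lt (degree_sum_le _ _) ?_
    rw [Finset.sup_lt_iff (WithBot.bot_lt_coe _)]
    intro i _
    refine lt_of_le_of_lt (degree_C_mul_X_pow_le _ _) ?_
    exact_mod_cast ZMod.val_lt i
  have hroot : aeval ζ A = 0 := by
    rw [hA, map_sum, ← h]
    apply Finset.sum_congr rfl
    intro i _
    simp
  have hmin : cyclotomic (p ^ (m + 1)) ℚ_[p] = minpoly ℚ_[p] ζ := by
    apply minpoly.eq_of_irreducible_of_monic (cyclotomic_irreducible_padic p m) _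
      (cyclotomic.monic _ _)
    have hne : NeZero (((p ^ (m + 1) : ℕ)) : E) :=
      ⟨by exact_mod_cast pow_ne_zero _ hp.out.ne_zero⟩
    have := (isRoot_cyclotomic_iff (R := E) (n := p ^ (m + 1)) (μ := ζ)).2 hζ
    rw [aeval_def, ← eval_map, map_cyclotomic]
    exact this
  obtain ⟨g, hg⟩ : cyclotomic (p ^ (m + 1)) ℚ_[p] ∣ A := by
    rw [hmin]; exact minpoly.dvd _ _ hroot
  have hgdeg : ∀ k, p ^ m ≤ k → g.coeff k = 0 := by
    intro k hk
    by_cases hg0 : g = 0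
    · simp [hg0]
    apply coeff_eq_zero_of_natDegree_lt
    have hc0 : cyclotomic (p ^ (m + 1)) ℚ_[p] ≠ 0 := cyclotomic_ne_zero _ _
    have hA0 : A ≠ 0 := by rw [hg]; exact mul_ne_zero hc0 hg0
    have h1 : A.natDegree < p ^ (m + 1) := (natDegree_lt_iff_degree_lt hA0).2 hdeg
    rw [hg, natDegree_mul hc0 hg0, natDegree_cyclotomic, Nat.totient_prime_pow_succ hp.out] at h1
    have h2 : p ^ (m + 1) = p ^ m * (p - 1) + p ^ m := by
      have : 1 ≤ p := hp.out.one_lt.le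
      obtain ⟨q, rfl⟩ := Nat.exists_eq_add_of_le this
      simp; ring
    omega
  have key : ∀ r < p ^ m, ∀ j < p, A.coeff (r + p ^ m * j) = g.coeff r := by
    intro r hr j hj
    have hpm : 0 < p ^ m := pow_pos hp.out.pos _
    rw [hg, cyclotomic_prime_pow_eq_geom_sum hp.out, Finset.sum_mul, finsetSum_coeff]
    simp only [← pow_mul, coeff_X_pow_mul']
    rw [Finset.sum_eq_single j]
    · rw [if_pos (Nat.le_add_left _ _), Nat.add_sub_cancel]
    · intro b _ hbj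
      split_ifs with hle
      · apply hgdeg
        have hbj' : b < j := by
          rcases lt_or_gt_of_ne hbj with h' | h'
          · exact h'
          · exfalso
            have : p ^ m * (j + 1) ≤ p ^ m * b := Nat.mul_le_mul_left _ h'
            rw [mul_add, mul_one] at this
            omega
        have : p ^ m * (b + 1) ≤ p ^ m * j := Nat.mul_le_mul_left _ hbj'
        rw [mul_add, mul_one] at this
        omega
      · rfl
    · intro hh; exact absurd (Finset.mem_range.2 hj) hh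
  have key2 : ∀ i : ZMod (p ^ (m + 1)), (a i : ℚ_[p]) = g.coeff (i.val % p ^ m) := by
    intro i
    have hpm : 0 < p ^ m := pow_pos hp.out.pos _
    have h1 := key (i.val % p ^ m) (Nat.mod_lt _ hpm) (i.val / p ^ m) (by
      rw [Nat.div_lt_iff_lt_mul hpm, ← pow_succ']
      exact ZMod.val_lt i)
    rw [Nat.mod_add_div] at h1
    rw [← h1, hAcoeff]
  have h3 : (a i : ℚ_[p]) = a j := by rw [key2, key2, hij]
  exact_mod_cast h3

lemma minpoly_primitiveRoot {p : ℕ} [hp : Fact p.Prime] {E : Type*} [Field E] [Algebra ℚ_[p] E]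
    {m : ℕ} {ζ : E} (hζ : IsPrimitiveRoot ζ (p ^ (m + 1))) :
    minpoly ℚ_[p] ζ = cyclotomic (p ^ (m + 1)) ℚ_[p] := by
  have : CharZero E := charZero_of_injective_algebraMap (algebraMap ℚ_[p] E).injective
  symm
  apply minpoly.eq_of_irreducible_of_monic (cyclotomic_irreducible_padic p m) _
    (cyclotomic.monic _ _)
  have hne : NeZero (((p ^ (m + 1) : ℕ)) : E) :=
    ⟨by exact_mod_cast pow_ne_zero _ hp.out.ne_zero⟩
  have := (isRoot_cyclotomic_iff (R := E) (n := p ^ (m + 1)) (μ := ζ)).2 hζ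
  rw [aeval_def, ← eval_map, map_cyclotomic]
  exact this

/-- The exponential sum `∑_{v ∈ V} μ_v ζ^{u v}`, with exponents read modulo `p ^ n`. -/
noncomputable def expSum {p : ℕ} [Fact p.Prime] {E : Type*} [Field E] (V : Finset ℤ_[p])
    (μ : ℤ_[p] → ℕ) (n : ℕ) (ζ : E) (u : ℤ_[p]) : E :=
  ∑ v ∈ V, (μ v : E) * ζ ^ (PadicInt.toZModPow n (u * v)).val

lemma val_add_pow_mod {p m : ℕ} [hp : Fact p.Prime] (x : ZMod (p ^ (m + 1))) :
    (x + (p : ZMod (p ^ (m + 1))) ^ m).val % p ^ m = x.val % p ^ m := by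
  have : NeZero (p ^ (m + 1)) := ⟨pow_ne_zero _ hp.out.ne_zero⟩
  rw [ZMod.val_add]
  have h1 : ((p : ZMod (p ^ (m + 1))) ^ m).val = p ^ m % p ^ (m + 1) := by
    rw [← Nat.cast_pow, ZMod.val_natCast]
  have h2 : p ^ m ∣ p ^ (m + 1) := pow_dvd_pow _ (Nat.le_succ _)
  rw [h1, Nat.add_mod_mod, Nat.mod_mod_of_dvd _ h2, Nat.add_mod_right]

lemma toZModPow_eq_iff {p : ℕ} [Fact p.Prime] (n : ℕ) (x y : ℤ_[p]) :
    PadicInt.toZModPow n x = PadicInt.toZModPow n y ↔ (p : ℤ_[p]) ^ n ∣ x - y := by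
  rw [← sub_eq_zero, ← map_sub, ← RingHom.mem_ker, PadicInt.ker_toZModPow,
    Ideal.mem_span_singleton]

lemma exists_of_expSum_eq {p : ℕ} [hp : Fact p.Prime] {E : Type*} [Field E] [Algebra ℚ_[p] E]
    {m : ℕ} {ζ : E} (hζ : IsPrimitiveRoot ζ (p ^ (m + 1))) (V : Finset ℤ_[p]) (μ : ℤ_[p] → ℕ)
    (hμ : ∀ v ∈ V, 0 < μ v) (hV : ∀ v ∈ V, ∀ w ∈ V, (p : ℤ_[p]) ^ m ∣ v - w → v = w)
    (u u' : ℤ_[p]) (hu : IsUnit u)
    (h : expSum V μ (m + 1) ζ u = expSum V μ (m + 1) ζ u') (v₀ : ℤ_[p]) (hv₀ : v₀ ∈ V) :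
    ∃ v₁ ∈ V, (p : ℤ_[p]) ^ (m + 1) ∣ u * v₀ - u' * v₁ := by
  have : NeZero (p ^ (m + 1)) := ⟨pow_ne_zero _ hp.out.ne_zero⟩
  by_contra hcon
  push Not at hcon
  set t := fun x : ℤ_[p] => PadicInt.toZModPow (m + 1) x with ht
  set a : ZMod (p ^ (m + 1)) → ℤ := fun i =>
    ∑ v ∈ V, ((μ v : ℤ) * (if t (u * v) = i then 1 else 0)
      - (μ v : ℤ) * (if t (u' * v) = i then 1 else 0)) with ha
  have hsum : ∑ i : ZMod (p ^ (m + 1)), (a i : E) * ζ ^ i.val = 0 := by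
    have h1 : ∑ i : ZMod (p ^ (m + 1)), (a i : E) * ζ ^ i.val
        = expSum V μ (m + 1) ζ u - expSum V μ (m + 1) ζ u' := by
      simp only [ha, expSum, Int.cast_sum, Finset.sum_mul]
      rw [Finset.sum_comm, ← Finset.sum_sub_distrib]
      apply Finset.sum_congr rfl
      intro v _
      push_cast
      simp only [sub_mul, Finset.sum_sub_distrib, mul_ite, mul_one, mul_zero, ite_mul, zero_mul,
        Finset.sum_ite_eq, Finset.mem_univ, if_true, ht]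
    rw [h1, h, sub_self]
  set i₀ := t (u * v₀) with hi₀
  have hz : ∀ v ∈ V, t (u' * v) ≠ i₀ := by
    intro v hv hh
    exact hcon v hv ((toZModPow_eq_iff _ _ _).1 hh.symm)
  have hpos : 0 < a i₀ := by
    have h1 : a i₀ = ∑ v ∈ V, (μ v : ℤ) * (if t (u * v) = i₀ then 1 else 0) := by
      simp only [ha]
      apply Finset.sum_congr rfl
      intro v hv
      rw [if_neg (hz v hv)]; ring
    rw [h1]
    apply lt_of_lt_of_le (b := (μ v₀ : ℤ) * (if t (u * v₀) = i₀ then 1 else 0))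
    · rw [if_pos rfl]; have := hμ v₀ hv₀; simpa using this
    · exact Finset.single_le_sum (f := fun v => (μ v : ℤ) * (if t (u * v) = i₀ then 1 else 0))
        (fun v _ => by positivity) hv₀
  have heq := coeff_eq_of_sum_eq_zero hζ a hsum (i₀ + (p : ZMod (p ^ (m + 1))) ^ m) i₀
    (val_add_pow_mod i₀)
  rw [← heq] at hpos
  obtain ⟨v₁, hv₁, h1⟩ : ∃ v₁ ∈ V, t (u * v₁) = i₀ + (p : ZMod (p ^ (m + 1))) ^ m := by
    by_contra hno
    push Not at hno
    have : a (i₀ + (p : ZMod (p ^ (m + 1))) ^ m) ≤ 0 := by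
      simp only [ha]
      apply Finset.sum_nonpos
      intro v hv
      rw [if_neg (hno v hv)]
      split_ifs <;> simp
    omega
  have h2 : t (u * v₁) = t (u * v₀ + (p : ℤ_[p]) ^ m) := by
    rw [h1, hi₀, ht]; simp
  rw [ht, toZModPow_eq_iff] at h2
  have h3 : (p : ℤ_[p]) ^ m ∣ u * (v₁ - v₀) := by
    have h4 : (p : ℤ_[p]) ^ m ∣ u * v₁ - (u * v₀ + (p : ℤ_[p]) ^ m) :=
      (pow_dvd_pow _ (Nat.le_succ _)).trans h2
    have h5 := h4.add (dvd_refl ((p : ℤ_[p]) ^ m))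
    have e : u * v₁ - (u * v₀ + (p : ℤ_[p]) ^ m) + (p : ℤ_[p]) ^ m = u * (v₁ - v₀) := by ring
    rwa [e] at h5
  have h6 : v₁ = v₀ := hV v₁ hv₁ v₀ hv₀ ((hu.dvd_mul_left).1 h3)
  rw [h6] at h2
  have e : u * v₀ - (u * v₀ + (p : ℤ_[p]) ^ m) = - (p : ℤ_[p]) ^ m := by ring
  rw [e, dvd_neg, pow_succ] at h2
  have hp0 : (p : ℤ_[p]) ^ m ≠ 0 := pow_ne_zero _ (by exact_mod_cast hp.out.ne_zero)
  have h7 : (p : ℤ_[p]) ^ m * p ∣ (p : ℤ_[p]) ^ m * 1 := by rwa [mul_one]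
  exact PadicInt.prime_p.not_isUnit (isUnit_of_dvd_one ((mul_dvd_mul_iff_left hp0).1 h7))

/-- The conjugates of the exponential sum. -/
lemma aeval_minpoly_expSum {p : ℕ} [hp : Fact p.Prime] {E : Type*} [Field E] [Algebra ℚ_[p] E]
    {m : ℕ} {ζ : E} (hζ : IsPrimitiveRoot ζ (p ^ (m + 1))) (V : Finset ℤ_[p]) (μ : ℤ_[p] → ℕ)
    (u : ℕ) (hu : u.Coprime p) :
    aeval (expSum V μ (m + 1) ζ (u : ℤ_[p])) (minpoly ℚ_[p] (expSum V μ (m + 1) ζ 1)) = 0 := by
  have : NeZero (p ^ (m + 1)) := ⟨pow_ne_zero _ hp.out.ne_zero⟩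
  set g : ℚ_[p][X] := ∑ v ∈ V, C (μ v : ℚ_[p]) * X ^ (PadicInt.toZModPow (m + 1) v).val with hg
  have hone : expSum V μ (m + 1) ζ 1 = aeval ζ g := by
    simp [expSum, hg, map_sum]
  have hζu : IsPrimitiveRoot (ζ ^ u) (p ^ (m + 1)) :=
    hζ.pow_of_coprime u (Nat.Coprime.pow_right _ hu)
  have hu' : expSum V μ (m + 1) ζ (u : ℤ_[p]) = aeval (ζ ^ u) g := by
    simp only [expSum, hg, map_sum]
    apply Finset.sum_congr rfl
    intro v _
    have h1 : ζ ^ (PadicInt.toZModPow (m + 1) ((u : ℤ_[p]) * v)).val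
        = (ζ ^ u) ^ (PadicInt.toZModPow (m + 1) v).val := by
      rw [← pow_mul, map_mul, map_natCast, ZMod.val_mul, ZMod.val_natCast, Nat.mod_mul_mod,
        ← pow_eq_pow_mod _ hζ.pow_eq_one]
    rw [h1]; simp
  set f := minpoly ℚ_[p] (expSum V μ (m + 1) ζ 1) with hf
  have h1 : aeval ζ (f.comp g) = 0 := by
    rw [aeval_comp, ← hone]; exact minpoly.aeval _ _
  have h2 : minpoly ℚ_[p] ζ ∣ f.comp g := minpoly.dvd _ _ h1
  rw [minpoly_primitiveRoot hζ, ← minpoly_primitiveRoot hζu] at h2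
  obtain ⟨q, hq⟩ := h2
  have h3 : aeval (ζ ^ u) (f.comp g) = 0 := by
    rw [hq, map_mul, minpoly.aeval, zero_mul]
  rwa [aeval_comp, ← hu'] at h3

lemma exists_not_pow_dvd {p : ℕ} [hp : Fact p.Prime] (x : ℤ_[p]) (hx : x ≠ 0) :
    ∃ n : ℕ, ∀ m, n ≤ m → ¬ (p : ℤ_[p]) ^ m ∣ x := by
  have h1 : 0 < ‖x‖ := norm_pos_iff.2 hx
  have hp1 : (1 : ℝ) < p := by exact_mod_cast hp.out.one_lt
  obtain ⟨n, hn⟩ := exists_pow_lt_of_lt_one h1 (inv_lt_one_of_one_lt₀ hp1)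
  refine ⟨n, fun m hm hdvd => ?_⟩
  have h2 : ‖x‖ ≤ (p : ℝ) ^ (-(m : ℤ)) :=
    (PadicInt.norm_le_pow_iff_mem_span_pow x m).2 (Ideal.mem_span_singleton.2 hdvd)
  have h3 : (p : ℝ) ^ (-(m : ℤ)) ≤ (p : ℝ)⁻¹ ^ n := by
    rw [zpow_neg, zpow_natCast, ← inv_pow]
    exact pow_le_pow_of_le_one (by positivity) (inv_le_one_of_one_le₀ hp1.le) hm
  linarith

lemma exists_separating {p : ℕ} [hp : Fact p.Prime] (V : Finset ℤ_[p]) :
    ∃ e : ℕ, ∀ m, e ≤ m → ∀ v ∈ V, ∀ w ∈ V, (p : ℤ_[p]) ^ m ∣ v - w → v = w := by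
  have h : ∀ x : ℤ_[p] × ℤ_[p], ∃ n : ℕ, x.1 ≠ x.2 → ∀ m, n ≤ m → ¬ (p : ℤ_[p]) ^ m ∣ x.1 - x.2 := by
    intro x
    by_cases hx : x.1 = x.2
    · exact ⟨0, fun h => absurd hx h⟩
    · obtain ⟨n, hn⟩ := exists_not_pow_dvd (x.1 - x.2) (sub_ne_zero.2 hx)
      exact ⟨n, fun _ => hn⟩
  choose f hf using h
  refine ⟨(V ×ˢ V).sup f, fun m hm v hv w hw hdvd => ?_⟩
  by_contra hne
  exact hf (v, w) hne m ((Finset.le_sup (f := f) (Finset.mk_mem_product hv hw)).trans hm) hdvd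

/-- The main algebraic bound: a fixed exponential sum of `p`-power roots of unity with a non-zero
frequency has degree at least a constant times `p ^ n` over `ℚ_p`. -/
lemma exists_degree_bound {p : ℕ} [hp : Fact p.Prime] (V : Finset ℤ_[p]) (μ : ℤ_[p] → ℕ)
    (hμ : ∀ v ∈ V, 0 < μ v) (v₀ : ℤ_[p]) (hv₀ : v₀ ∈ V) (h0 : v₀ ≠ 0) :
    ∃ C : ℕ, ∀ (E : Type) [Field E] [Algebra ℚ_[p] E] (n : ℕ), 1 ≤ n → ∀ ζ : E,
      IsPrimitiveRoot ζ (p ^ n) →
        p ^ n ≤ p ^ C * (minpoly ℚ_[p] (expSum V μ n ζ 1)).natDegree := by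
  obtain ⟨e₀, he₀⟩ := exists_separating V
  obtain ⟨r, hr⟩ := exists_not_pow_dvd v₀ h0
  set e := e₀ + 1 with he
  refine ⟨e + r, fun E _ _ n hn ζ hζ => ?_⟩
  have hint : IsIntegral ℚ_[p] (expSum V μ n ζ 1) := by
    have hζint : IsIntegral ℚ_[p] ζ := by
      refine IsIntegral.of_pow (n := p ^ n) (pow_pos hp.out.pos _) ?_
      rw [hζ.pow_eq_one]; exact isIntegral_one
    unfold expSum
    apply IsIntegral.sum
    intro v _
    exact (isIntegral_algebraMap (R := ℚ_[p]) (A := E) (x := (μ v : ℚ_[p]))).mul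
      (hζint.pow _) |> (by simpa using ·)
  have hdeg1 : 1 ≤ (minpoly ℚ_[p] (expSum V μ n ζ 1)).natDegree := minpoly.natDegree_pos hint
  by_cases hnC : n ≤ e + r
  · calc p ^ n ≤ p ^ (e + r) * 1 := by
          rw [mul_one]; exact Nat.pow_le_pow_right hp.out.pos hnC
      _ ≤ _ := Nat.mul_le_mul_left _ hdeg1
  push Not at hnC
  obtain ⟨m, rfl⟩ : ∃ m, n = m + 1 := ⟨n - 1, by omega⟩
  set N := m + 1 - e - r with hN
  have hV : ∀ v ∈ V, ∀ w ∈ V, (p : ℤ_[p]) ^ m ∣ v - w → v = w := he₀ m (by omega)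
  have hVe : ∀ v ∈ V, ∀ w ∈ V, (p : ℤ_[p]) ^ e ∣ v - w → v = w := he₀ e (by omega)
  set f := minpoly ℚ_[p] (expSum V μ (m + 1) ζ 1) with hf
  have hf0 : f ≠ 0 := minpoly.ne_zero hint
  have hcop : ∀ j : ℕ, (1 + p ^ e * j).Coprime p := by
    intro j
    have : 1 + p ^ e * j = 1 + p * (p ^ e₀ * j) := by rw [he, pow_succ]; ring
    rw [this]
    simp
  have hunit : ∀ j : ℕ, IsUnit (((1 + p ^ e * j : ℕ)) : ℤ_[p]) := by
    intro j
    rw [PadicInt.isUnit_iff]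
    have h1 := hcop j
    rw [PadicInt.norm_natCast_eq_one_iff]
    exact h1.symm
  have hinj : Set.InjOn (fun j : ℕ => expSum V μ (m + 1) ζ (((1 + p ^ e * j : ℕ)) : ℤ_[p]))
      (Finset.range (p ^ N) : Set ℕ) := by
    intro j hj j' hj' hjj
    obtain ⟨v₁, hv₁, hdvd⟩ := exists_of_expSum_eq hζ V μ hμ hV _ _ (hunit j) hjj v₀ hv₀
    have h1 : (p : ℤ_[p]) ^ e ∣ v₀ - v₁ := by
      have h2 : (p : ℤ_[p]) ^ e ∣ ((1 + p ^ e * j : ℕ) : ℤ_[p]) * v₀
          - ((1 + p ^ e * j' : ℕ) : ℤ_[p]) * v₁ := (pow_dvd_pow _ (by omega)).trans hdvd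
      have h3 : (p : ℤ_[p]) ^ e ∣ (p : ℤ_[p]) ^ e * (j * v₀ - j' * v₁) := dvd_mul_right _ _
      have h4 := dvd_sub h2 h3
      have e1 : ((1 + p ^ e * j : ℕ) : ℤ_[p]) * v₀ - ((1 + p ^ e * j' : ℕ) : ℤ_[p]) * v₁
          - (p : ℤ_[p]) ^ e * (j * v₀ - j' * v₁) = v₀ - v₁ := by push_cast; ring
      rwa [e1] at h4
    have h5 : v₀ = v₁ := hVe v₀ hv₀ v₁ hv₁ h1
    rw [← h5] at hdvd
    have e2 : ((1 + p ^ e * j : ℕ) : ℤ_[p]) * v₀ - ((1 + p ^ e * j' : ℕ) : ℤ_[p]) * v₀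
        = (p : ℤ_[p]) ^ e * (((j - j' : ℤ) : ℤ_[p]) * v₀) := by push_cast; ring
    have e3 : (p : ℤ_[p]) ^ (m + 1) = (p : ℤ_[p]) ^ e * (p : ℤ_[p]) ^ (N + r) := by
      rw [← pow_add]; congr 1; omega
    have hpe : (p : ℤ_[p]) ^ e ≠ 0 := pow_ne_zero _ (by exact_mod_cast hp.out.ne_zero)
    rw [e2, e3, mul_dvd_mul_iff_left hpe] at hdvd
    have h6 : ‖((j - j' : ℤ) : ℤ_[p]) * v₀‖ ≤ (p : ℝ) ^ (-((N + r : ℕ) : ℤ)) :=
      (PadicInt.norm_le_pow_iff_mem_span_pow _ _).2 (Ideal.mem_span_singleton.2 hdvd)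
    have h7 : (p : ℝ) ^ (-(r : ℤ)) < ‖v₀‖ := by
      by_contra hcon
      push Not at hcon
      exact hr r le_rfl (Ideal.mem_span_singleton.1
        ((PadicInt.norm_le_pow_iff_mem_span_pow _ _).1 hcon))
    rw [norm_mul] at h6
    have hp0 : (0 : ℝ) < p := by exact_mod_cast hp.out.pos
    have h8 : ‖((j - j' : ℤ) : ℤ_[p])‖ ≤ (p : ℝ) ^ (-(N : ℤ)) := by
      by_contra hcon
      push Not at hcon
      have h9 : (p : ℝ) ^ (-(N : ℤ)) * (p : ℝ) ^ (-(r : ℤ))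
          < ‖((j - j' : ℤ) : ℤ_[p])‖ * ‖v₀‖ :=
        mul_lt_mul'' hcon h7 (by positivity) (by positivity)
      rw [← zpow_add₀ hp0.ne'] at h9
      have e4 : -(N : ℤ) + -(r : ℤ) = -((N + r : ℕ) : ℤ) := by push_cast; ring
      rw [e4] at h9
      linarith
    rw [PadicInt.norm_int_le_pow_iff_dvd] at h8
    have hj1 : j < p ^ N := by simpa using hj
    have hj2 : j' < p ^ N := by simpa using hj'
    have h10 : ((j : ℤ) - j') = 0 := by
      apply Int.eq_zero_of_abs_lt_dvd h8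
      rw [abs_lt]
      constructor
      · have : (j' : ℤ) < (p : ℤ) ^ N := by exact_mod_cast hj2
        push_cast; omega
      · have : (j : ℤ) < (p : ℤ) ^ N := by exact_mod_cast hj1
        push_cast; omega
    omega
  have hcard : p ^ N ≤ f.natDegree := by
    classical
    have h1 : (Finset.range (p ^ N)).image
        (fun j : ℕ => expSum V μ (m + 1) ζ (((1 + p ^ e * j : ℕ)) : ℤ_[p]))
        ⊆ (f.map (algebraMap ℚ_[p] E)).roots.toFinset := by
      intro x hx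
      obtain ⟨j, _, rfl⟩ := Finset.mem_image.1 hx
      rw [Multiset.mem_toFinset, mem_roots (map_ne_zero hf0), IsRoot.def, eval_map,
        ← aeval_def]
      exact aeval_minpoly_expSum hζ V μ _ (hcop j)
    have h2 := Finset.card_le_card h1
    rw [Finset.card_image_of_injOn hinj, Finset.card_range] at h2
    calc p ^ N ≤ _ := h2
      _ ≤ _ := Multiset.toFinset_card_le _
      _ ≤ _ := card_roots' _
      _ = f.natDegree := natDegree_map _
  calc p ^ (m + 1) = p ^ (e + r) * p ^ N := by rw [← pow_add]; congr 1; omega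
    _ ≤ _ := Nat.mul_le_mul_left _ hcard

end Pool.Agent.Helper93
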