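import Mathlib
import Pool.Agent.Helper93.Cyclo

set_option autoImplicit false

namespace Pool.Agent.Helper93

open PowerSeries

section

variable {R : Type*} [CommSemiring R]

/-- The geometric series `∑_j c ^ j X ^ (d j)`. -/
noncomputable def geomSeries (d : ℕ) (c : R) : PowerSeries R :=
  PowerSeries.mk fun j => if d ∣ j then c ^ (j / d) else 0

lemma map_geomSeries {S : Type*} [CommSemiring S] (f : R →+* S) (d : ℕ) (c : R) :
    PowerSeries.map f (geomSeries d c) = geomSeries d (f c) := by
  ext j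
  simp only [geomSeries, coeff_map, coeff_mk]
  split_ifs <;> simp

lemma coeff_geomSeries (d : ℕ) (c : R) (j : ℕ) :
    coeff j (geomSeries d c) = if d ∣ j then c ^ (j / d) else 0 := by
  simp [geomSeries]

end

lemma geomSeries_eq_inv {E : Type*} [Field E] {d : ℕ} (hd : 0 < d) (c : E) :
    (1 - C c * X ^ d)⁻¹ = geomSeries d c := by
  have hcc : constantCoeff (1 - C c * X ^ d : PowerSeries E) ≠ 0 := by
    simp [hd.ne']
  rw [eq_comm, PowerSeries.eq_inv_iff_mul_eq_one hcc]
  ext j
  rw [mul_sub, mul_one, map_sub, ← mul_assoc, coeff_mul_X_pow', mul_comm _ (C c)]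
  rw [coeff_geomSeries]
  by_cases hj : d ≤ j
  · rw [if_pos hj, coeff_C_mul, coeff_geomSeries]
    have hj0 : j ≠ 0 := by omega
    rw [coeff_one, if_neg hj0]
    by_cases hdj : d ∣ j
    · obtain ⟨i, rfl⟩ := hdj
      have hi : 1 ≤ i := by
        rcases Nat.eq_zero_or_pos i with h | h
        · simp [h] at hj0
        · exact h
      obtain ⟨i', rfl⟩ := Nat.exists_eq_add_of_le hi
      have e1 : d * (1 + i') - d = d * i' := by
        rw [mul_add, mul_one, Nat.add_sub_cancel_left]
      rw [e1, if_pos (dvd_mul_right _ _), if_pos (dvd_mul_right _ _), Nat.mul_div_cancel_left _ hd,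
        Nat.mul_div_cancel_left _ hd, pow_add, pow_one]
      ring
    · have h2 : ¬ d ∣ j - d := by
        intro h
        apply hdj
        have := dvd_add h (dvd_refl d)
        rwa [Nat.sub_add_cancel hj] at this
      rw [if_neg hdj, if_neg h2]; simp
  · rw [if_neg hj, sub_zero, coeff_one]
    by_cases hj0 : j = 0
    · simp [hj0]
    · have h2 : ¬ d ∣ j := fun h => hj (Nat.le_of_dvd (Nat.pos_of_ne_zero hj0) h)
      rw [if_neg h2, if_neg hj0]

section universal

variable {G : Type*} [AddCommGroup G]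

/-- The universal finite Euler product, with coefficients in the semiring `ℕ[G]`. -/
noncomputable def univEuler {ι : Type*} (B : Finset ι) (d : ι → ℕ) (F : ι → G) :
    PowerSeries (AddMonoidAlgebra ℕ G) :=
  ∏ x ∈ B, geomSeries (d x) (AddMonoidAlgebra.single (F x) 1)

/-- The evaluation of an element of `ℕ[G]` at a character. -/
noncomputable def evalChar {E : Type*} [Field E] (χ : Multiplicative G →* E) :
    AddMonoidAlgebra ℕ G →+* E :=
  (AddMonoidAlgebra.lift ℕ E G χ).toRingHom

lemma evalChar_single {E : Type*} [Field E] (χ : Multiplicative G →* E) (g : G) :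
    evalChar χ (AddMonoidAlgebra.single g 1) = χ (Multiplicative.ofAdd g) := by
  simp [evalChar, AddMonoidAlgebra.lift_single]

lemma evalChar_apply {E : Type*} [Field E] (χ : Multiplicative G →* E)
    (f : AddMonoidAlgebra ℕ G) :
    evalChar χ f = ∑ g ∈ f.coeff.support, (f.coeff g : E) * χ (Multiplicative.ofAdd g) := by
  simp only [evalChar, AlgHom.toRingHom_eq_coe, RingHom.coe_coe, AddMonoidAlgebra.lift_apply,
    Finsupp.sum, nsmul_eq_mul]

lemma map_univEuler {E : Type*} [Field E] (χ : Multiplicative G →* E) {ι : Type*} (B : Finset ι)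
    (d : ι → ℕ) (hd : ∀ x ∈ B, 0 < d x) (F : ι → G) :
    PowerSeries.map (evalChar χ) (univEuler B d F)
      = ∏ x ∈ B, (1 - C (χ (Multiplicative.ofAdd (F x))) * X ^ d x)⁻¹ := by
  rw [univEuler, map_prod]
  apply Finset.prod_congr rfl
  intro x hx
  rw [map_geomSeries, evalChar_single, geomSeries_eq_inv (hd x hx)]

lemma coeff_zero_univEuler {ι : Type*} (B : Finset ι) (d : ι → ℕ) (F : ι → G) :
    coeff 0 (univEuler B d F) = 1 := by
  rw [coeff_zero_eq_constantCoeff_apply, univEuler, map_prod]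
  apply Finset.prod_eq_one
  intro x _
  rw [← coeff_zero_eq_constantCoeff_apply, coeff_geomSeries]
  simp

/-- The universal Euler product has the expected positive coefficients. -/
lemma one_le_coeff_univEuler {ι : Type*} (B : Finset ι) (d : ι → ℕ)
    (F : ι → G) (x₀ : ι) (hx₀ : x₀ ∈ B) (hd₀ : 0 < d x₀) (j : ℕ) :
    1 ≤ (coeff (d x₀ * j) (univEuler B d F)).coeff (j • F x₀) := by
  classical
  have h1 : univEuler B d F
      = geomSeries (d x₀) (AddMonoidAlgebra.single (F x₀) 1) * univEuler (B.erase x₀) d F := by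
    exact (Finset.mul_prod_erase B
      (fun x => geomSeries (d x) (AddMonoidAlgebra.single (F x) (1 : ℕ))) hx₀).symm
  have h2 : ∀ f g : AddMonoidAlgebra ℕ G, ∀ a : G, (f + g).coeff a = f.coeff a + g.coeff a := by
    intro f g a; rfl
  have h3 : coeff (d x₀ * j) (univEuler B d F)
      = AddMonoidAlgebra.single (j • F x₀) 1
        + ∑ ij ∈ (Finset.HasAntidiagonal.antidiagonal (d x₀ * j)).erase (d x₀ * j, 0),
          coeff ij.1 (geomSeries (d x₀) (AddMonoidAlgebra.single (F x₀) (1 : ℕ)))
            * coeff ij.2 (univEuler (B.erase x₀) d F) := by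
    rw [h1, coeff_mul, ← Finset.add_sum_erase _ _
      (show (d x₀ * j, 0) ∈ Finset.HasAntidiagonal.antidiagonal (d x₀ * j) by simp)]
    congr 1
    rw [coeff_zero_univEuler, mul_one, coeff_geomSeries, if_pos (dvd_mul_right _ _),
      Nat.mul_div_cancel_left _ hd₀, AddMonoidAlgebra.single_pow, one_pow]
  rw [h3, h2]
  have h4 : (AddMonoidAlgebra.single (j • F x₀) 1 : AddMonoidAlgebra ℕ G).coeff (j • F x₀) = 1 := by
    simp
  omega

end universal

/-- A character of `ℤ_p` of finite order `p ^ n` in terms of its value at `1`. -/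
lemma char_apply {p : ℕ} [hp : Fact p.Prime] {E : Type*} [Field E] (χ : Multiplicative ℤ_[p] →* Eˣ)
    {n : ℕ} (hχ : χ ^ (p ^ n) = 1) (v : ℤ_[p]) :
    (χ (Multiplicative.ofAdd v) : E)
      = (χ (Multiplicative.ofAdd 1) : E) ^ (PadicInt.toZModPow n v).val := by
  have : NeZero (p ^ n) := ⟨pow_ne_zero _ hp.out.ne_zero⟩
  set N := (PadicInt.toZModPow n v).val with hN
  have h1 : (p : ℤ_[p]) ^ n ∣ v - (N : ℤ_[p]) := by
    rw [← toZModPow_eq_iff, map_natCast, hN, ZMod.natCast_zmod_val]
  obtain ⟨w, hw⟩ := h1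
  have h2 : v = N • (1 : ℤ_[p]) + (p ^ n) • w := by
    rw [nsmul_eq_mul, nsmul_eq_mul, mul_one]
    push_cast
    rw [← hw]; ring
  have h3 : χ (Multiplicative.ofAdd ((p ^ n) • w)) = 1 := by
    rw [ofAdd_nsmul, map_pow]
    have := DFunLike.congr_fun hχ (Multiplicative.ofAdd w)
    simpa using this
  conv_lhs => rw [h2]
  rw [ofAdd_add, map_mul, h3, mul_one, ofAdd_nsmul, map_pow, Units.val_pow_eq_pow_val]

lemma char_isPrimitiveRoot {p : ℕ} [hp : Fact p.Prime] {E : Type*} [Field E]
    (χ : Multiplicative ℤ_[p] →* Eˣ) {n : ℕ} (hχ : orderOf χ = p ^ n) :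
    IsPrimitiveRoot (χ (Multiplicative.ofAdd 1) : E) (p ^ n) := by
  have h1 : χ ^ (p ^ n) = 1 := by rw [← hχ]; exact pow_orderOf_eq_one χ
  constructor
  · have := DFunLike.congr_fun h1 (Multiplicative.ofAdd 1)
    rw [MonoidHom.pow_apply, MonoidHom.one_apply] at this
    rw [← Units.val_pow_eq_pow_val, this, Units.val_one]
  · intro l hl
    rw [← hχ]
    apply orderOf_dvd_of_pow_eq_one
    refine MonoidHom.ext fun v => Units.ext ?_
    have h2 := char_apply χ h1 (Multiplicative.toAdd v)
    rw [ofAdd_toAdd] at h2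
    rw [MonoidHom.pow_apply, MonoidHom.one_apply, Units.val_pow_eq_pow_val, h2, ← pow_mul,
      mul_comm, pow_mul, hl, one_pow, Units.val_one]

end Pool.Agent.Helper93
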