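import Mathlib

set_option autoImplicit false

/-!
# `ℤ_p`-towers of curves over finite fields and their `L`-functions

Smooth projective geometrically connected curves over a finite field `k` are described by their
function fields, finite covers by finite extensions of function fields, and closed points by
valuation rings of the function field.
-/

namespace Pool.Agent.Helper93

/-- `K` is the function field of a smooth projective geometrically connected curve `X` over the
finite field `k`: the extension `K / k` is finitely generated of transcendence degree one, and `k`
is algebraically closed in `K`. -/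
structure IsCurveFunctionField (k K : Type*) [Field k] [Field K] [Algebra k K] : Prop where
  finitelyGenerated : Algebra.EssFiniteType k K
  trdeg_eq_one : Algebra.trdeg k K = 1
  geometricallyConnected : ∀ f : K, IsAlgebraic k f → f ∈ Set.range (algebraMap k K)

/-- The closed points of the curve with function field `K` over `k`: the valuation rings `≠ K`
of `K` that contain `k`. -/
@[ext]
structure ClosedPoint (k K : Type*) [Field k] [Field K] [Algebra k K] where
  /-- the local ring of the curve at the point -/
  ring : ValuationSubring K
  algebraMap_mem : ∀ c : k, algebraMap k K c ∈ ring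
  ne_top : ring ≠ ⊤

namespace ClosedPoint

variable {k K : Type*} [Field k] [Field K] [Algebra k K] (x : ClosedPoint k K)

/-- The residue field of a closed point. -/
abbrev residueField : Type _ := IsLocalRing.ResidueField x.ring

/-- The embedding of the field of constants `k` into the residue field. -/
noncomputable def constants : k →+* x.residueField :=
  (IsLocalRing.residue x.ring).comp ((algebraMap k K).codRestrict x.ring x.algebraMap_mem)

/-- The degree of a closed point: the degree of its residue field over `k`. -/
noncomputable def deg : ℕ :=
  letI : Algebra k x.residueField := x.constants.toAlgebra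
  Module.finrank k x.residueField

variable (L : Type*) [Field L] [Algebra K L]

/-- `w` is a valuation ring of `L` above the closed point `x`. -/
def IsAbove (w : ValuationSubring L) : Prop := w.comap (algebraMap K L) = x.ring

/-- `L / K` is unramified at `x`: for every `w` above `x` the inertia group of `w` in `Gal(L/K)`
is trivial. -/
def IsUnramified : Prop :=
  ∀ w : ValuationSubring L, x.IsAbove L w → ∀ σ : Gal(L/K),
    (∀ f ∈ w, σ f - f ∈ w.nonunits) → σ = 1

variable {L} in
/-- `σ` is the (arithmetic) Frobenius at `x` in the abelian extension `L / K`: for every `w`
above `x` and every `f ∈ w`, one has `σ f ≡ f ^ #κ(x)` modulo the maximal ideal of `w`, where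
`κ(x)` is the residue field of `x`. -/
def IsFrobenius (σ : Gal(L/K)) : Prop :=
  ∀ w : ValuationSubring L, x.IsAbove L w → ∀ f ∈ w, σ f - f ^ Nat.card x.residueField ∈ w.nonunits

end ClosedPoint

/-- A `ℤ_p`-tower over the curve `X` with function field `K` over `k`, with `L` the function
field of `X_∞` (the union of the function fields `K_n` of the curves `X_n`): `L / K` is Galois with
group topologically isomorphic to `ℤ_p`, and it is unramified outside a finite set `S` of closed
points of `X`. Here `K_n` is the fixed field of `p ^ n ℤ_p`, and `G_n = Gal(K_n/K)` is the quotient
`ℤ_p / p ^ n ℤ_p`. -/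
structure ZpTower (p : ℕ) [Fact p.Prime] (k K L : Type*) [Field k] [Field K] [Field L]
    [Algebra k K] [Algebra K L] where
  isGalois : IsGalois K L
  galEquiv : Gal(L/K) ≃ₜ* Multiplicative ℤ_[p]
  /-- the finite set of closed points outside which the tower is unramified -/
  S : Set (ClosedPoint k K)
  finite_S : S.Finite
  unramified : ∀ x ∉ S, x.IsUnramified L

namespace ZpTower

variable {p : ℕ} [Fact p.Prime] {k K L : Type*} [Field k] [Field K] [Field L]
  [Algebra k K] [Algebra K L] (T : ZpTower p k K L)

/-- The Frobenius element of `Gal(L/K)` at a closed point outside `S`. -/
noncomputable def frob (x : ClosedPoint k K) : Gal(L/K) :=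
  Classical.epsilon fun σ => x.IsFrobenius σ

/-- The `L`-function `L(χ, s) = ∏_{x ∉ S} (1 - χ(Frob_x) s ^ (deg x))⁻¹`, as a formal power series:
its `m`-th coefficient is that of the finite product over the closed points `x ∉ S` of degree at
most `m` (the other factors are `1 + O(s ^ (m + 1))`). A character `χ` of `Gal(L/K) ≅ ℤ_p` of exact
order `p ^ n` is the same thing as a primitive character of `G_n = ℤ_p / p ^ n ℤ_p`. -/
noncomputable def LFunction (χ : Gal(L/K) →* ℂ_[p]ˣ) : PowerSeries ℂ_[p] :=
  PowerSeries.mk fun m => PowerSeries.coeff m
    (∏ᶠ (x : ClosedPoint k K) (_ : x ∉ T.S ∧ x.deg ≤ m),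
      (1 - PowerSeries.C (χ (frob x) : ℂ_[p]) * PowerSeries.X ^ x.deg)⁻¹)

end ZpTower

end Pool.Agent.Helper93
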