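import Mathlib
import Pool.Agent.Helper93.WanDefs

set_option autoImplicit false

namespace Pool.Agent.Helper93

open IntermediateField Polynomial IsDedekindDomain
open scoped algebraAdjoinAdjoin

/-- A finitely generated extension of transcendence degree one of a finite field is finite
separable over a rational function field. -/
lemma exists_separating_element (k K : Type*) [Field k] [Finite k] [Field K] [Algebra k K]
    (h1 : Algebra.EssFiniteType k K) (h2 : Algebra.trdeg k K = 1) :
    ∃ t : K, Transcendental k t ∧ Algebra.IsSeparable k⟮t⟯ K ∧ FiniteDimensional k⟮t⟯ K := by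
  obtain ⟨s, hs, hsep⟩ := exists_isTranscendenceBasis_and_isSeparable_of_perfectField k K
  have hcard : (Cardinal.mk s) = 1 := by rw [hs.cardinalMk_eq_trdeg, h2]
  have hcard' : s.card = 1 := by
    rw [Cardinal.mk_coe_finset] at hcard
    exact_mod_cast hcard
  obtain ⟨t, rfl⟩ := Finset.card_eq_one.1 hcard'
  have ht : Transcendental k t := by
    have := hs.1
    exact this.transcendental ⟨t, Finset.mem_singleton_self t⟩
  rw [Finset.coe_singleton] at hsep
  refine ⟨t, ht, hsep, ?_⟩
  have : Algebra.EssFiniteType k⟮t⟯ K := Algebra.EssFiniteType.of_comp k k⟮t⟯ K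
  have : Algebra.IsAlgebraic k⟮t⟯ K := inferInstance
  exact Algebra.finite_of_essFiniteType_of_isAlgebraic

section

variable {k K : Type*} [Field k] [Field K] [Algebra k K] {t : K}

lemma adjoin_isPrincipalIdealRing : IsPrincipalIdealRing (Algebra.adjoin k ({t} : Set K)) := by
  set f : k[X] →ₐ[k] (Algebra.adjoin k ({t} : Set K)) :=
    aeval ⟨t, Algebra.self_mem_adjoin_singleton k t⟩ with hf
  apply IsPrincipalIdealRing.of_surjective f.toRingHom
  rintro ⟨x, hx⟩
  rw [Algebra.adjoin_singleton_eq_range_aeval] at hx
  obtain ⟨q, hq⟩ := hx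
  refine ⟨q, Subtype.ext (Eq.trans ?_ hq)⟩
  simp only [hf, AlgHom.toRingHom_eq_coe, RingHom.coe_coe]
  have := Polynomial.aeval_algebraMap_apply K
    (⟨t, Algebra.self_mem_adjoin_singleton k t⟩ : Algebra.adjoin k ({t} : Set K)) q
  exact this.symm

variable (t) in
/-- The integral closure of `k[t]` in `K`. -/
abbrev intClosure : Subalgebra (Algebra.adjoin k ({t} : Set K)) K :=
  integralClosure (Algebra.adjoin k ({t} : Set K)) K

variable [Algebra.IsSeparable k⟮t⟯ K] [FiniteDimensional k⟮t⟯ K]

lemma isDedekind_intClosure : IsDedekindDomain (intClosure (k := k) t) := by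
  have := adjoin_isPrincipalIdealRing (k := k) (t := t)
  exact integralClosure.isDedekindDomain (Algebra.adjoin k ({t} : Set K)) k⟮t⟯ K

omit [Algebra.IsSeparable k⟮t⟯ K] in
lemma isFractionRing_intClosure : IsFractionRing (intClosure (k := k) t) K :=
  integralClosure.isFractionRing_of_finite_extension k⟮t⟯ K

lemma finite_intClosure :
    Module.Finite (Algebra.adjoin k ({t} : Set K)) (intClosure (k := k) t) := by
  have := adjoin_isPrincipalIdealRing (k := k) (t := t)
  exact IsIntegralClosure.finite (Algebra.adjoin k ({t} : Set K)) k⟮t⟯ K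
    (intClosure (k := k) t)

omit [Algebra.IsSeparable k⟮t⟯ K] [FiniteDimensional k⟮t⟯ K] in
lemma intClosure_le (w : ValuationSubring K) (hk : ∀ c : k, algebraMap k K c ∈ w) (ht : t ∈ w)
    (a : intClosure (k := k) t) : (a : K) ∈ w := by
  have h1 : ∀ r : Algebra.adjoin k ({t} : Set K), (r : K) ∈ w := by
    rintro ⟨r, hr⟩
    refine Algebra.adjoin_induction (p := fun r _ => r ∈ w) ?_ ?_ ?_ ?_ hr
    · rintro x hx
      rw [Set.mem_singleton_iff] at hx
      rwa [hx]
    · exact hk
    · intro x y _ _ hx hy; exact add_mem hx hy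
    · intro x y _ _ hx hy; exact mul_mem hx hy
  have h2 : IsIntegral (Algebra.adjoin k ({t} : Set K)) (a : K) := a.2
  have h3 : IsIntegral w (a : K) := by
    obtain ⟨P, hP, hPa⟩ := h2
    let φ : (Algebra.adjoin k ({t} : Set K)) →+* w :=
      (algebraMap (Algebra.adjoin k ({t} : Set K)) K).codRestrict w h1
    refine ⟨P.map φ, hP.map φ, ?_⟩
    rw [eval₂_map]
    exact hPa
  obtain ⟨y, hy⟩ := (IsIntegrallyClosed.isIntegral_iff (R := w) (K := K)).1 h3
  rw [← hy]
  exact y.2

/-- A proper valuation ring containing `k[t]` is the one of a prime of the integral closure of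
`k[t]`. -/
lemma exists_heightOneSpectrum (w : ValuationSubring K) (hk : ∀ c : k, algebraMap k K c ∈ w)
    (ht : t ∈ w) (hw : w ≠ ⊤) :
    letI := isDedekind_intClosure (k := k) (t := t)
    letI := isFractionRing_intClosure (k := k) (t := t)
    ∃ P : HeightOneSpectrum (intClosure (k := k) t), (P.valuation K).valuationSubring = w ∧
      ∀ a : intClosure (k := k) t, a ∈ P.asIdeal ↔ (a : K) ∈ w.nonunits := by
  have hD := isDedekind_intClosure (k := k) (t := t)
  have hF := isFractionRing_intClosure (k := k) (t := t)
  have hle := intClosure_le w hk ht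
  let φ : (intClosure (k := k) t) →+* w :=
    (algebraMap (intClosure (k := k) t) K).codRestrict w hle
  let P : Ideal (intClosure (k := k) t) := (IsLocalRing.maximalIdeal w).comap φ
  have hPprime : P.IsPrime := Ideal.IsPrime.comap φ
  have hmem : ∀ a : intClosure (k := k) t, a ∈ P ↔ (a : K) ∈ w.nonunits := by
    intro a
    rw [Ideal.mem_comap, ValuationSubring.mem_nonunits_iff_exists_mem_maximalIdeal]
    constructor
    · intro h; exact ⟨hle a, h⟩
    · rintro ⟨_, h⟩; exact h
  have hPbot : P ≠ ⊥ := by
    intro hbot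
    apply hw
    rw [eq_top_iff]
    rintro x -
    obtain ⟨a, b, hb, rfl⟩ := IsFractionRing.div_surjective (A := intClosure (k := k) t) x
    have hb0 : b ≠ 0 := nonZeroDivisors.ne_zero hb
    have hbP : b ∉ P := by rw [hbot]; simpa using hb0
    rw [hmem] at hbP
    have hbw : (b : K) ∈ w := hle b
    have hinv : (b : K)⁻¹ ∈ w := by
      rw [ValuationSubring.mem_nonunits_iff] at hbP
      have h1 : w.valuation (b : K) = 1 :=
        le_antisymm ((w.valuation_le_one_iff _).2 hbw) (not_lt.1 hbP)
      rw [← w.valuation_le_one_iff, map_inv₀, h1, inv_one]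
    rw [div_eq_mul_inv]
    exact w.mul_mem _ _ (hle a) hinv
  let Q : HeightOneSpectrum (intClosure (k := k) t) := ⟨P, hPprime, hPbot⟩
  refine ⟨Q, ?_, hmem⟩
  -- elements outside `P` are units of `w`
  have hunit : ∀ s : intClosure (k := k) t, s ∉ P → w.valuation (s : K) = 1 := by
    intro s hs
    rw [hmem, ValuationSubring.mem_nonunits_iff] at hs
    exact le_antisymm ((w.valuation_le_one_iff _).2 (hle s)) (not_lt.1 hs)
  ext x
  rw [Valuation.mem_valuationSubring_iff]
  constructor
  · intro hx
    obtain ⟨a, d, h⟩ := Q.exists_primeCompl_mul_eq_of_integer (K := K) x hx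
    have h1 := hunit d d.2
    rw [← w.valuation_le_one_iff]
    have h2 : w.valuation x * w.valuation ((d : intClosure (k := k) t) : K)
        = w.valuation (a : K) := by
      rw [← map_mul]; exact congrArg _ h
    rw [h1, mul_one] at h2
    rw [h2, w.valuation_le_one_iff]
    exact hle a
  · intro hx
    by_contra hcon
    push Not at hcon
    have hx0 : x ≠ 0 := by rintro rfl; simp at hcon
    have h1 : Q.valuation K x⁻¹ < 1 := by
      rw [map_inv₀]; exact inv_lt_one_of_one_lt₀ hcon
    obtain ⟨a, d, h⟩ := Q.exists_primeCompl_mul_eq_of_integer (K := K) x⁻¹ h1.le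
    have hd : Q.valuation K (algebraMap (intClosure (k := k) t) K d) = 1 := by
      rw [Q.valuation_eq_one_iff_notMem]
      exact d.2
    have ha : a ∈ P := by
      have h2 : Q.valuation K (algebraMap (intClosure (k := k) t) K a) < 1 := by
        rw [← h, map_mul, hd, mul_one]; exact h1
      rwa [Q.valuation_lt_one_iff_mem] at h2
    rw [hmem, ValuationSubring.mem_nonunits_iff] at ha
    have h3 : w.valuation x⁻¹ < 1 := by
      have h4 : w.valuation x⁻¹ * w.valuation ((d : intClosure (k := k) t) : K)
          = w.valuation (a : K) := by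
        rw [← map_mul]; exact congrArg _ h
      rw [hunit d d.2, mul_one] at h4
      rwa [h4]
    have h5 : w.valuation x ≤ 1 := (w.valuation_le_one_iff _).2 hx
    have h6 : w.valuation x * w.valuation x⁻¹ = 1 := by
      rw [← map_mul, mul_inv_cancel₀ hx0, map_one]
    have h7 : w.valuation x * w.valuation x⁻¹ < 1 := by
      calc w.valuation x * w.valuation x⁻¹ ≤ 1 * w.valuation x⁻¹ := mul_le_mul_left h5 _
        _ = w.valuation x⁻¹ := one_mul _
        _ < 1 := h3
    exact absurd h6 h7.ne

/-- Finitely many valuation rings containing `k[t]` have a given nonzero element of the integral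
closure of `k[t]` in their maximal ideal. -/
lemma finite_setOf_mem_nonunits (g : intClosure (k := k) t) (hg : g ≠ 0) :
    {w : ValuationSubring K | (∀ c : k, algebraMap k K c ∈ w) ∧ t ∈ w ∧ w ≠ ⊤ ∧
      (g : K) ∈ w.nonunits}.Finite := by
  have hD := isDedekind_intClosure (k := k) (t := t)
  have hF := isFractionRing_intClosure (k := k) (t := t)
  have hfin := Ideal.finite_factors (R := intClosure (k := k) t) (I := Ideal.span {g})
    (by rw [Ne, Ideal.zero_eq_bot, Ideal.span_singleton_eq_bot]; exact hg)
  refine (hfin.image (fun P => (P.valuation K).valuationSubring)).subset ?_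
  rintro w ⟨hk, ht, hw, hgw⟩
  obtain ⟨P, hP1, hP2⟩ := exists_heightOneSpectrum w hk ht hw
  refine ⟨P, ?_, hP1⟩
  rw [Set.mem_ofPred_eq, Ideal.dvd_span_singleton, hP2]
  exact hgw

/-- The residue field at a closed point where `t` is regular is finite over `k`. -/
lemma finite_residueField_aux (x : ClosedPoint k K) (ht : t ∈ x.ring) :
    letI : Algebra k x.residueField := x.constants.toAlgebra
    Module.Finite k x.residueField := by
  let _ : Algebra k x.residueField := x.constants.toAlgebra
  have hD := isDedekind_intClosure (k := k) (t := t)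
  have hF := isFractionRing_intClosure (k := k) (t := t)
  have hfin := finite_intClosure (k := k) (t := t)
  have hle := intClosure_le x.ring x.algebraMap_mem ht
  obtain ⟨P, hP1, hP2⟩ := exists_heightOneSpectrum x.ring x.algebraMap_mem ht x.ne_top
  let φ : (intClosure (k := k) t) →+* x.ring :=
    (algebraMap (intClosure (k := k) t) K).codRestrict x.ring hle
  let ψ : (intClosure (k := k) t) →+* x.residueField := (IsLocalRing.residue x.ring).comp φ
  have hψ : Function.Surjective ψ := by
    intro y
    obtain ⟨⟨f, hf⟩, rfl⟩ := IsLocalRing.residue_surjective y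
    have hf' : P.valuation K f ≤ 1 := by
      have : f ∈ (P.valuation K).valuationSubring := by rw [hP1]; exact hf
      exact this
    obtain ⟨a, d, h⟩ := P.exists_primeCompl_mul_eq_of_integer (K := K) f hf'
    have hmax : P.asIdeal.IsMaximal := P.isPrime.isMaximal P.ne_bot
    obtain ⟨d', hd'⟩ := hmax.exists_inv (x := (d : intClosure (k := k) t)) d.2
    refine ⟨a * d', ?_⟩
    rw [← sub_eq_zero]
    have e1 : ψ (a * d') - (IsLocalRing.residue x.ring) ⟨f, hf⟩
        = IsLocalRing.residue x.ring (φ (a * d') - ⟨f, hf⟩) := by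
      rw [map_sub]; rfl
    rw [e1, IsLocalRing.residue_eq_zero_iff]
    obtain ⟨i, hi, hdi⟩ := hd'
    have hi' : ((i : intClosure (k := k) t) : K) ∈ x.ring.nonunits := (hP2 i).1 hi
    rw [← ValuationSubring.coe_mem_nonunits_iff]
    have e2 : ((φ (a * d') - ⟨f, hf⟩ : x.ring) : K) = -(f * (i : K)) := by
      have e3 : ((φ (a * d') : x.ring) : K) = (a : K) * (d' : K) := by
        simp [φ]
      have e4 : (d' : K) * ((d : intClosure (k := k) t) : K) + (i : K) = 1 := by
        have := congrArg (fun z : intClosure (k := k) t => (z : K)) hdi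
        simpa using this
      have e5 : f * ((d : intClosure (k := k) t) : K) = (a : K) := h
      push_cast
      rw [e3, ← e5]
      linear_combination f * e4
    rw [e2, ValuationSubring.mem_nonunits_iff, Valuation.map_neg, map_mul]
    rw [ValuationSubring.mem_nonunits_iff] at hi'
    calc x.ring.valuation f * x.ring.valuation (i : K)
        ≤ 1 * x.ring.valuation (i : K) :=
          mul_le_mul_left ((x.ring.valuation_le_one_iff _).2 hf) _
      _ = x.ring.valuation (i : K) := one_mul _
      _ < 1 := hi'
  have hcomp : ∀ c : k, ψ (algebraMap k _ c) = algebraMap k x.residueField c := by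
    intro c
    rfl
  let Ψ : (intClosure (k := k) t) →ₐ[k] x.residueField := { ψ with commutes' := hcomp }
  have hft : Algebra.FiniteType k (intClosure (k := k) t) := by
    have h1 : Algebra.FiniteType k (Algebra.adjoin k ({t} : Set K)) :=
      Algebra.FiniteType.adjoin_of_finite (Set.finite_singleton t)
    have h2 : Algebra.FiniteType (Algebra.adjoin k ({t} : Set K)) (intClosure (k := k) t) :=
      inferInstance
    exact h1.trans h2
  have hft' : Algebra.FiniteType k x.residueField := hft.of_surjective Ψ hψ
  exact finite_of_finite_type_of_isJacobsonRing k x.residueField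

end

section main

variable {k K : Type*} [Field k] [Finite k] [Field K] [Algebra k K]

/-- The residue field of a closed point is finite over the field of constants. -/
lemma finite_residueField (h1 : Algebra.EssFiniteType k K) (h2 : Algebra.trdeg k K = 1)
    (x : ClosedPoint k K) :
    letI : Algebra k x.residueField := x.constants.toAlgebra
    Module.Finite k x.residueField := by
  obtain ⟨t, ht, hsep, hfd⟩ := exists_separating_element k K h1 h2
  rcases x.ring.mem_or_inv_mem t with h | h
  · exact finite_residueField_aux (t := t) x h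
  · have heq : k⟮t⁻¹⟯ = k⟮t⟯ := by
      apply le_antisymm
      · rw [adjoin_simple_le_iff]; exact inv_mem (mem_adjoin_simple_self k t)
      · rw [adjoin_simple_le_iff]
        have := inv_mem (mem_adjoin_simple_self k t⁻¹)
        rwa [inv_inv] at this
    rw [← heq] at hsep hfd
    exact finite_residueField_aux (t := t⁻¹) x h

lemma card_residueField (h1 : Algebra.EssFiniteType k K) (h2 : Algebra.trdeg k K = 1)
    (x : ClosedPoint k K) :
    Nat.card x.residueField = Nat.card k ^ x.deg := by
  let _ : Algebra k x.residueField := x.constants.toAlgebra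
  have := finite_residueField h1 h2 x
  have hfin : Finite x.residueField := Module.finite_of_finite k
  exact Module.natCard_eq_pow_finrank (K := k) (V := x.residueField)

lemma deg_pos (h1 : Algebra.EssFiniteType k K) (h2 : Algebra.trdeg k K = 1)
    (x : ClosedPoint k K) : 0 < x.deg := by
  let _ : Algebra k x.residueField := x.constants.toAlgebra
  have := finite_residueField h1 h2 x
  exact Module.finrank_pos

lemma pow_card_sub_mem_nonunits (h1 : Algebra.EssFiniteType k K) (h2 : Algebra.trdeg k K = 1)
    (x : ClosedPoint k K) {t : K} (ht : t ∈ x.ring) :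
    t ^ (Nat.card k ^ x.deg) - t ∈ x.ring.nonunits := by
  let _ : Algebra k x.residueField := x.constants.toAlgebra
  have := finite_residueField h1 h2 x
  have hfin : Finite x.residueField := Module.finite_of_finite k
  let _ := Fintype.ofFinite x.residueField
  have h3 : (IsLocalRing.residue x.ring ⟨t, ht⟩) ^ (Nat.card x.residueField)
      = IsLocalRing.residue x.ring ⟨t, ht⟩ := by
    rw [Nat.card_eq_fintype_card]; exact FiniteField.pow_card _
  rw [card_residueField h1 h2, ← sub_eq_zero, ← map_pow, ← map_sub,
    IsLocalRing.residue_eq_zero_iff, ← ValuationSubring.coe_mem_nonunits_iff] at h3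
  simpa using h3

/-- There are finitely many closed points of bounded degree. -/
lemma finite_deg_le (h1 : Algebra.EssFiniteType k K) (h2 : Algebra.trdeg k K = 1) (m : ℕ) :
    {x : ClosedPoint k K | x.deg ≤ m}.Finite := by
  obtain ⟨t, ht, hsep, hfd⟩ := exists_separating_element k K h1 h2
  -- the points where a separating element is regular
  have main : ∀ t : K, Transcendental k t → Algebra.IsSeparable k⟮t⟯ K →
      FiniteDimensional k⟮t⟯ K → {x : ClosedPoint k K | x.deg ≤ m ∧ t ∈ x.ring}.Finite := by
    intro t ht hsep hfd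
    set g : k[X] := ∏ d ∈ Finset.Icc 1 m, (X ^ (Nat.card k ^ d) - X) with hg
    have hg0 : g ≠ 0 := by
      rw [hg, Finset.prod_ne_zero_iff]
      intro d hd
      have hq : 1 < Nat.card k := Finite.one_lt_card
      exact FiniteField.X_pow_card_pow_sub_X_ne_zero k (by
        have := (Finset.mem_Icc.1 hd).1; omega) hq
    have hgt : aeval t g ≠ 0 := by
      intro h
      exact hg0 ((transcendental_iff.1 ht) g h)
    have hmemR : aeval t g ∈ Algebra.adjoin k ({t} : Set K) :=
      aeval_mem_adjoin_singleton k t
    let G : intClosure (k := k) t :=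
      algebraMap (Algebra.adjoin k ({t} : Set K)) _ ⟨aeval t g, hmemR⟩
    have hG : (G : K) = aeval t g := rfl
    have hG0 : G ≠ 0 := by
      intro h
      apply hgt
      rw [← hG, h]; rfl
    have hfin := finite_setOf_mem_nonunits G hG0
    refine Set.Finite.of_finite_image (f := ClosedPoint.ring) (hfin.subset ?_) ?_
    · rintro w ⟨x, ⟨hx1, hx2⟩, rfl⟩
      refine ⟨x.algebraMap_mem, hx2, x.ne_top, ?_⟩
      rw [hG, hg, map_prod, ValuationSubring.mem_nonunits_iff, map_prod]
      have hmem : x.deg ∈ Finset.Icc 1 m := Finset.mem_Icc.2 ⟨deg_pos h1 h2 x, hx1⟩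
      rw [← Finset.mul_prod_erase _ _ hmem]
      have hlt : x.ring.valuation (aeval t (X ^ (Nat.card k ^ x.deg) - X : k[X])) < 1 := by
        rw [← ValuationSubring.mem_nonunits_iff]
        simpa using pow_card_sub_mem_nonunits h1 h2 x hx2
      have hle : ∏ d ∈ (Finset.Icc 1 m).erase x.deg,
          x.ring.valuation (aeval t (X ^ (Nat.card k ^ d) - X : k[X])) ≤ 1 := by
        apply Finset.prod_le_one'
        intro d _
        rw [ValuationSubring.valuation_le_one_iff]
        simpa using sub_mem (pow_mem hx2 _) hx2
      calc _ ≤ x.ring.valuation (aeval t (X ^ (Nat.card k ^ x.deg) - X : k[X])) * 1 :=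
            mul_le_mul_right hle _
        _ < 1 := by rwa [mul_one]
    · intro x _ y _ hxy
      exact ClosedPoint.ext hxy
  have heq : k⟮t⁻¹⟯ = k⟮t⟯ := by
    apply le_antisymm
    · rw [adjoin_simple_le_iff]; exact inv_mem (mem_adjoin_simple_self k t)
    · rw [adjoin_simple_le_iff]
      have := inv_mem (mem_adjoin_simple_self k t⁻¹)
      rwa [inv_inv] at this
  have ht' : Transcendental k t⁻¹ := by
    intro halg
    apply ht
    have := halg.inv
    rwa [inv_inv] at this
  refine ((main t ht hsep hfd).union (main t⁻¹ ht' (heq ▸ hsep) (heq ▸ hfd))).subset ?_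
  intro x hx
  rcases x.ring.mem_or_inv_mem t with h | h
  · exact Or.inl ⟨hx, h⟩
  · exact Or.inr ⟨hx, h⟩

/-- A finite set of closed points is not everything. -/
lemma exists_notMem_of_finite (h1 : Algebra.EssFiniteType k K) (h2 : Algebra.trdeg k K = 1)
    (S : Set (ClosedPoint k K)) (hS : S.Finite) : ∃ x : ClosedPoint k K, x ∉ S := by
  classical
  obtain ⟨t, ht, hsep, hfd⟩ := exists_separating_element k K h1 h2
  set G : k[X] := ∏ x ∈ hS.toFinset, (X ^ (Nat.card k ^ x.deg) - X) with hG
  set h : k[X] := 1 + X * G with hh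
  have hG0 : G ≠ 0 := by
    rw [hG, Finset.prod_ne_zero_iff]
    intro x _
    have hq : 1 < Nat.card k := Finite.one_lt_card
    exact FiniteField.X_pow_card_pow_sub_X_ne_zero k (deg_pos h1 h2 x).ne' hq
  have hdeg : 0 < h.natDegree := by
    have e1 : h.natDegree = (X * G).natDegree := by
      rw [hh, add_comm, ← C_1, natDegree_add_C]
    rw [e1, natDegree_mul X_ne_zero hG0, natDegree_X]
    omega
  let R := Algebra.adjoin k ({t} : Set K)
  have hmem : ∀ q : k[X], aeval t q ∈ R := fun q => aeval_mem_adjoin_singleton k t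
  let ht' : R := ⟨aeval t h, hmem h⟩
  have hspan : Ideal.span ({ht'} : Set R) ≠ ⊤ := by
    rw [Ne, Ideal.span_singleton_eq_top]
    rintro ⟨u, hu⟩
    have hinv : (u : R) * ((u⁻¹ : Rˣ) : R) = 1 := u.mul_inv
    obtain ⟨r, hr⟩ : ∃ r : k[X], aeval t r = (((u⁻¹ : Rˣ) : R) : K) := by
      have hR : ∀ z ∈ R, ∃ r : k[X], aeval t r = z := by
        intro z hz
        have hz' : z ∈ Algebra.adjoin k ({t} : Set K) := hz
        rw [Algebra.adjoin_singleton_eq_range_aeval] at hz'
        exact hz'
      exact hR _ ((u⁻¹ : Rˣ) : R).2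
    have e1 : aeval t (h * r) = 1 := by
      rw [map_mul, hr]
      have e2 : (aeval t h : K) = ((u : R) : K) := by rw [hu]
      rw [e2]
      exact_mod_cast congrArg (fun z : R => (z : K)) hinv
    have e3 : h * r = 1 := by
      have : aeval t (h * r - 1) = 0 := by rw [map_sub, e1, map_one, sub_self]
      exact sub_eq_zero.1 ((transcendental_iff.1 ht) _ this)
    have e4 : IsUnit h := IsUnit.of_mul_eq_one r e3
    have e5 := natDegree_eq_zero_of_isUnit e4
    omega
  obtain ⟨B, hB1, hB2⟩ := Ideal.image_subset_nonunits_valuationSubring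
    (A := R.toSubring) (Ideal.span ({ht'} : Set R)) hspan
  have hkB : ∀ c : k, algebraMap k K c ∈ B := fun c => hB1 (R.algebraMap_mem c)
  have htB : t ∈ B := hB1 (Algebra.self_mem_adjoin_singleton k t)
  have hhB : aeval t h ∈ B.nonunits := hB2 ⟨ht', Ideal.subset_span rfl, rfl⟩
  have hBtop : B ≠ ⊤ := by
    rintro rfl
    rw [ValuationSubring.mem_nonunits_iff_or] at hhB
    rcases hhB with h0 | h0
    · have := (transcendental_iff.1 ht) _ h0
      rw [this] at hdeg
      simp at hdeg
    · exact h0 (ValuationSubring.mem_top _)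
  refine ⟨⟨B, hkB, hBtop⟩, fun hmemS => ?_⟩
  set y : ClosedPoint k K := ⟨B, hkB, hBtop⟩ with hy
  have hGB : aeval t G ∈ B.nonunits := by
    rw [hG, map_prod, ValuationSubring.mem_nonunits_iff, map_prod]
    have hmem' : y ∈ hS.toFinset := hS.mem_toFinset.2 hmemS
    rw [← Finset.mul_prod_erase _ _ hmem']
    have hlt : B.valuation (aeval t (X ^ (Nat.card k ^ y.deg) - X : k[X])) < 1 := by
      rw [← ValuationSubring.mem_nonunits_iff]
      simpa using pow_card_sub_mem_nonunits h1 h2 y (t := t) htB
    have hle : ∏ d ∈ hS.toFinset.erase y,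
        B.valuation (aeval t (X ^ (Nat.card k ^ d.deg) - X : k[X])) ≤ 1 := by
      apply Finset.prod_le_one'
      intro d _
      rw [ValuationSubring.valuation_le_one_iff]
      simpa using sub_mem (pow_mem htB _) htB
    calc _ ≤ B.valuation (aeval t (X ^ (Nat.card k ^ y.deg) - X : k[X])) * 1 :=
          mul_le_mul_right hle _
      _ < 1 := by rwa [mul_one]
  have h1' : (1 : K) = aeval t h - t * aeval t G := by
    rw [hh]; simp
  have h2' : B.valuation (1 : K) < 1 := by
    rw [h1']
    refine lt_of_le_of_lt (Valuation.map_sub _ _ _) (max_lt hhB ?_)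
    rw [map_mul]
    calc B.valuation t * B.valuation (aeval t G) ≤ 1 * B.valuation (aeval t G) :=
          mul_le_mul_left ((B.valuation_le_one_iff _).2 htB) _
      _ = _ := one_mul _
      _ < 1 := hGB
  rw [map_one] at h2'
  exact lt_irrefl _ h2'

end main

end Pool.Agent.Helper93
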