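import Mathlib
import Pool.Agent.Helper93.WanDefs
import Pool.Agent.Helper93.Places

set_option autoImplicit false

/-!
# Existence and uniqueness of Frobenius elements at unramified closed points
-/

namespace Pool.Agent.Helper93

open scoped Pointwise

variable {K L : Type*} [Field K] [Field L] [Algebra K L]

/-- Every valuation ring of `K` extends to `L`. -/
lemma exists_comap_eq (A : ValuationSubring K) :
    ∃ w : ValuationSubring L, w.comap (algebraMap K L) = A := by
  obtain ⟨w, h, hloc⟩ := IsLocalRing.exists_factor_valuationRing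
    ((algebraMap K L).comp A.subtype)
  refine ⟨w, ?_⟩
  ext y
  rw [ValuationSubring.mem_comap]
  constructor
  · intro hy
    by_contra hyA
    have hy0 : y ≠ 0 := by rintro rfl; exact hyA A.zero_mem
    have hinv : y⁻¹ ∈ A := (A.mem_or_inv_mem y).resolve_left hyA
    have hu : IsUnit (((algebraMap K L).comp A.subtype).codRestrict w.toSubring h ⟨y⁻¹, hinv⟩) := by
      refine IsUnit.of_mul_eq_one ⟨algebraMap K L y, hy⟩ ?_
      apply Subtype.ext
      change algebraMap K L y⁻¹ * algebraMap K L y = 1
      rw [← map_mul, inv_mul_cancel₀ hy0, map_one]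
    have hu' := hloc.map_nonunit _ hu
    obtain ⟨⟨u, v, huv, hvu⟩, hu1⟩ := hu'
    apply hyA
    have h1 : (u : K) = y⁻¹ := congrArg Subtype.val hu1
    have h2 : (u : K) * (v : K) = 1 := congrArg Subtype.val huv
    have h3 : (v : K) = y := by
      rw [h1] at h2
      field_simp at h2
      exact h2
    rw [← h3]; exact v.2
  · intro hy
    exact h ⟨y, hy⟩

/-- An element of `L` lying in every valuation ring of `L` containing `A` is integral over `A`. -/
lemma isIntegral_of_forall_mem (A : ValuationSubring K) (s : L)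
    (h : ∀ V : ValuationSubring L, (∀ a ∈ A, algebraMap K L a ∈ V) → s ∈ V) :
    IsIntegral A s := by
  by_contra hs
  have hs' : s ∉ (integralClosure A L).toSubring := hs
  have : IsIntegrallyClosedIn (integralClosure A L).toSubring L :=
    inferInstanceAs (IsIntegrallyClosedIn (integralClosure A L) L)
  obtain ⟨V, hV1, hV2⟩ := Subring.exists_le_valuationSubring_of_isIntegrallyClosedIn hs'
  apply hV2
  apply h
  intro a ha
  apply hV1
  exact (integralClosure A L).algebraMap_mem ⟨a, ha⟩

/-- Valuation rings above `A` are localisations of the integral closure of `A`. -/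
lemma exists_denominator [Algebra.IsAlgebraic K L] (A : ValuationSubring K)
    (w : ValuationSubring L) (hw : w.comap (algebraMap K L) = A) (f : L) (hf : f ∈ w) :
    ∃ s : L, IsIntegral A s ∧ IsIntegral A (s * f) ∧ s ∉ w.nonunits := by
  by_cases hf0 : f = 0
  · subst hf0
    refine ⟨1, isIntegral_one, by rw [mul_zero]; exact isIntegral_zero, ?_⟩
    rw [ValuationSubring.mem_nonunits_iff, map_one]; exact lt_irrefl _
  have halg : IsAlgebraic K f := Algebra.IsAlgebraic.isAlgebraic f
  set P0 := minpoly K f with hP0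
  have hP0ne : P0 ≠ 0 := minpoly.ne_zero halg.isIntegral
  obtain ⟨i0, hi0, hmax⟩ := Finset.exists_max_image P0.support (fun i => A.valuation (P0.coeff i))
    (Polynomial.support_nonempty.2 hP0ne)
  have hc : P0.coeff i0 ≠ 0 := Polynomial.mem_support_iff.1 hi0
  set a : ℕ → K := fun i => (P0.coeff i0)⁻¹ * P0.coeff i with ha
  have haval : ∀ i, A.valuation (a i) ≤ 1 := by
    intro i
    have h1 : A.valuation (P0.coeff i) ≤ A.valuation (P0.coeff i0) := by
      by_cases hi : i ∈ P0.support
      · exact hmax i hi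
      · rw [Polynomial.notMem_support_iff.1 hi, map_zero]; exact zero_le
    rw [ha]
    simp only [map_mul, map_inv₀]
    have h2 : A.valuation (P0.coeff i0) ≠ 0 := (Valuation.ne_zero_iff _).2 hc
    calc (A.valuation (P0.coeff i0))⁻¹ * A.valuation (P0.coeff i)
        ≤ (A.valuation (P0.coeff i0))⁻¹ * A.valuation (P0.coeff i0) := mul_le_mul_right h1 _
      _ = 1 := inv_mul_cancel₀ h2
  have haA : ∀ i, a i ∈ A := fun i => (A.valuation_le_one_iff _).1 (haval i)
  have hai0 : A.valuation (a i0) = 1 := by
    rw [ha]; simp only; rw [inv_mul_cancel₀ hc, map_one]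
  set n := P0.natDegree with hn
  -- the last index with a unit coefficient
  set J := (Finset.range (n + 1)).filter (fun i => A.valuation (a i) = 1) with hJ
  have hJne : J.Nonempty := ⟨i0, by
    rw [hJ, Finset.mem_filter, Finset.mem_range]
    exact ⟨Nat.lt_succ_of_le (Polynomial.le_natDegree_of_mem_supp _ hi0), hai0⟩⟩
  set j := J.max' hJne with hj
  have hjJ : j ∈ J := J.max'_mem hJne
  have hjn : j < n + 1 := Finset.mem_range.1 (Finset.mem_filter.1 hjJ).1
  have hj1 : A.valuation (a j) = 1 := (Finset.mem_filter.1 hjJ).2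
  have hj2 : ∀ i, j < i → i < n + 1 → A.valuation (a i) < 1 := by
    intro i hi hin
    refine lt_of_le_of_ne (haval i) fun hcon => ?_
    have : i ≤ j := J.le_max' i (Finset.mem_filter.2 ⟨Finset.mem_range.2 hin, hcon⟩)
    omega
  -- the relation
  have hrel : ∑ i ∈ Finset.range (n + 1), algebraMap K L (a i) * f ^ i = 0 := by
    have h1 : Polynomial.aeval f P0 = 0 := minpoly.aeval K f
    rw [Polynomial.aeval_eq_sum_range] at h1
    have h2 : ∑ i ∈ Finset.range (n + 1), algebraMap K L (a i) * f ^ i
        = algebraMap K L (P0.coeff i0)⁻¹ * ∑ i ∈ Finset.range (n + 1), P0.coeff i • f ^ i := by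
      rw [Finset.mul_sum]
      apply Finset.sum_congr rfl
      intro i _
      rw [ha, map_mul, Algebra.smul_def]; ring
    rw [h2, h1, mul_zero]
  set s : L := ∑ i ∈ Finset.Ico j (n + 1), algebraMap K L (a i) * f ^ (i - j) with hs
  set u : L := ∑ i ∈ Finset.range j, algebraMap K L (a i) * (f⁻¹) ^ (j - 1 - i) with hu
  have hsu : s * f = - u := by
    have h1 : f ^ j * (s * f + u) = 0 := by
      have h2 : f ^ j * (s * f) = f * ∑ i ∈ Finset.Ico j (n + 1), algebraMap K L (a i) * f ^ i := by
        rw [hs, Finset.sum_mul, Finset.mul_sum, Finset.mul_sum]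
        apply Finset.sum_congr rfl
        intro i hi
        have hji := (Finset.mem_Ico.1 hi).1
        have : f ^ i = f ^ j * f ^ (i - j) := by rw [← pow_add, Nat.add_sub_cancel' hji]
        rw [this]; ring
      have h3 : f ^ j * u = f * ∑ i ∈ Finset.range j, algebraMap K L (a i) * f ^ i := by
        rw [hu, Finset.mul_sum, Finset.mul_sum]
        apply Finset.sum_congr rfl
        intro i hi
        have hij := Finset.mem_range.1 hi
        have e : f ^ j = f * f ^ i * f ^ (j - 1 - i) := by
          rw [mul_assoc, ← pow_add, ← pow_succ']; congr 1; omega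
        have e2 : f ^ (j - 1 - i) * (f⁻¹) ^ (j - 1 - i) = 1 := by
          rw [← mul_pow, mul_inv_cancel₀ hf0, one_pow]
        rw [e]
        linear_combination (f * f ^ i * algebraMap K L (a i)) * e2
      rw [mul_add, h2, h3, ← mul_add, add_comm,
        Finset.sum_range_add_sum_Ico _ (Nat.le_of_lt_succ hjn |>.trans (Nat.le_succ _)), hrel,
        mul_zero]
    have h4 : s * f + u = 0 := (mul_eq_zero.1 h1).resolve_left (pow_ne_zero _ hf0)
    linear_combination h4
  have hsint : IsIntegral A s := by
    apply isIntegral_of_forall_mem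
    intro V hV
    have hterm : ∀ i, algebraMap K L (a i) ∈ V := fun i => hV _ (haA i)
    rcases V.mem_or_inv_mem f with hfV | hfV
    · rw [hs]
      exact sum_mem fun i _ => mul_mem (hterm i) (pow_mem hfV _)
    · have h1 : s = -u * f⁻¹ := by rw [← hsu, mul_assoc, mul_inv_cancel₀ hf0, mul_one]
      rw [h1]
      refine mul_mem (neg_mem ?_) hfV
      rw [hu]
      exact sum_mem fun i _ => mul_mem (hterm i) (pow_mem hfV _)
  have hsfint : IsIntegral A (s * f) := by
    apply isIntegral_of_forall_mem
    intro V hV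
    have hterm : ∀ i, algebraMap K L (a i) ∈ V := fun i => hV _ (haA i)
    rcases V.mem_or_inv_mem f with hfV | hfV
    · refine mul_mem ?_ hfV
      rw [hs]
      exact sum_mem fun i _ => mul_mem (hterm i) (pow_mem hfV _)
    · rw [hsu]
      refine neg_mem ?_
      rw [hu]
      exact sum_mem fun i _ => mul_mem (hterm i) (pow_mem hfV _)
  refine ⟨s, hsint, hsfint, ?_⟩
  -- `s` is a unit of `w`
  have hmemA : ∀ y : K, A.valuation y < 1 → w.valuation (algebraMap K L y) < 1 := by
    intro y hy
    rw [← ValuationSubring.mem_nonunits_iff, ValuationSubring.mem_nonunits_iff_or] at hy ⊢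
    rcases hy with rfl | hy
    · left; simp
    · right
      intro h
      apply hy
      rw [← hw, ValuationSubring.mem_comap, map_inv₀]
      exact h
  have hajw : w.valuation (algebraMap K L (a j)) = 1 := by
    have h1 : w.valuation (algebraMap K L (a j)) ≤ 1 := by
      rw [ValuationSubring.valuation_le_one_iff, ← ValuationSubring.mem_comap, hw]
      exact haA j
    refine le_antisymm h1 (not_lt.1 fun hlt => ?_)
    rw [← ValuationSubring.mem_nonunits_iff, ValuationSubring.mem_nonunits_iff_or] at hlt
    rcases hlt with h2 | h2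
    · rw [map_eq_zero] at h2
      rw [h2, map_zero] at hj1
      exact zero_ne_one hj1
    · apply h2
      rw [← map_inv₀, ← ValuationSubring.mem_comap, hw, ← ValuationSubring.valuation_le_one_iff,
        map_inv₀, hj1, inv_one]
  rw [ValuationSubring.mem_nonunits_iff]
  intro hslt
  have hsplit : s = algebraMap K L (a j)
      + ∑ i ∈ Finset.Ico (j + 1) (n + 1), algebraMap K L (a i) * f ^ (i - j) := by
    rw [hs, Finset.sum_eq_sum_Ico_succ_bot hjn, Nat.sub_self, pow_zero, mul_one]
  have htail : w.valuation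
      (∑ i ∈ Finset.Ico (j + 1) (n + 1), algebraMap K L (a i) * f ^ (i - j)) < 1 := by
    apply Valuation.map_sum_lt _ one_ne_zero
    intro i hi
    rw [Finset.mem_Ico] at hi
    have h1 := hmemA (a i) (hj2 i (by omega) hi.2)
    have h2 : w.valuation (f ^ (i - j)) ≤ 1 := by
      rw [ValuationSubring.valuation_le_one_iff]; exact pow_mem hf _
    rw [map_mul]
    calc w.valuation (algebraMap K L (a i)) * w.valuation (f ^ (i - j))
        ≤ w.valuation (algebraMap K L (a i)) * 1 := mul_le_mul_right h2 _
      _ < 1 := by rwa [mul_one]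
  have hcon : w.valuation (algebraMap K L (a j)) < 1 := by
    have e : algebraMap K L (a j)
        = s - ∑ i ∈ Finset.Ico (j + 1) (n + 1), algebraMap K L (a i) * f ^ (i - j) := by
      rw [hsplit]; ring
    rw [e]
    exact lt_of_le_of_lt (Valuation.map_sub _ _ _) (max_lt hslt htail)
  rw [hajw] at hcon
  exact lt_irrefl _ hcon

lemma integral_mem (A : ValuationSubring K) (w : ValuationSubring L)
    (hw : w.comap (algebraMap K L) = A) (b : L) (hb : IsIntegral A b) : b ∈ w := by
  have hA : ∀ a : A, algebraMap A L a ∈ w := by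
    intro a
    have h1 : (a : K) ∈ w.comap (algebraMap K L) := by rw [hw]; exact a.2
    exact h1
  have h3 : IsIntegral w b := by
    obtain ⟨P, hP, hPa⟩ := hb
    let φ : A →+* w := (algebraMap A L).codRestrict w hA
    refine ⟨P.map φ, hP.map φ, ?_⟩
    rw [Polynomial.eval₂_map]
    exact hPa
  obtain ⟨y, hy⟩ := (IsIntegrallyClosed.isIntegral_iff (R := w) (K := L)).1 h3
  rw [← hy]
  exact y.2

attribute [local instance] Ideal.Quotient.field in
/-- In an abelian extension there is an element acting as Frobenius on the integral closure of `A`,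
modulo every prime above the maximal ideal of `A`. -/
lemma exists_frobenius_integral [IsGalois K L] (hcomm : ∀ σ τ : Gal(L/K), σ * τ = τ * σ)
    (A : ValuationSubring K) [Finite (IsLocalRing.ResidueField A)] :
    ∃ σ : Gal(L/K), ∀ w : ValuationSubring L, w.comap (algebraMap K L) = A →
      ∀ b : L, IsIntegral A b → σ b - b ^ Nat.card (IsLocalRing.ResidueField A) ∈ w.nonunits := by
  let B := integralClosure A L
  let P := IsLocalRing.maximalIdeal A
  let _ : MulSemiringAction Gal(L/K) B := IsIntegralClosure.MulSemiringAction A K L B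
  have hsmul : ∀ (σ : Gal(L/K)) (b : B), ((σ • b : B) : L) = σ (b : L) := fun σ b =>
    algebraMap_galRestrict_apply A σ b
  have hscc : SMulCommClass Gal(L/K) A B := ⟨fun σ a b => by
    apply Subtype.ext
    rw [hsmul]
    have h1 : ((a • b : B) : L) = algebraMap A L a * (b : L) := by
      rw [← Algebra.smul_def]; rfl
    have h2 : ((a • (σ • b) : B) : L) = algebraMap A L a * ((σ • b : B) : L) := by
      rw [← Algebra.smul_def]; rfl
    rw [h1, h2, map_mul, hsmul]
    congr 1
    exact σ.commutes (a : K)⟩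
  let _ : TopologicalSpace B := ⊥
  have hdisc : DiscreteTopology B := ⟨rfl⟩
  have hcont : ContinuousSMul Gal(L/K) B := by
    refine (continuousSMul_iff_stabilizer_isOpen (M := Gal(L/K)) (X := B)).2 ?_
    intro b
    have h1 := stabilizer_isOpen_of_isIntegral (K := K) (b : L)
    convert! h1 using 2
    ext σ
    rw [MulAction.mem_stabilizer_iff, MulAction.mem_stabilizer_iff]
    constructor
    · intro h; rw [AlgEquiv.smul_def, ← hsmul, h]
    · intro h; apply Subtype.ext; rw [hsmul]; exact h
  have hinv : Algebra.IsInvariant A B Gal(L/K) := ⟨fun b hb => by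
    have h1 : (b : L) ∈ Set.range (algebraMap K L) := by
      rw [InfiniteGalois.mem_range_algebraMap_iff_fixed]
      intro σ
      rw [← hsmul, hb]
    obtain ⟨y, hy⟩ := h1
    have h2 : IsIntegral A y := by
      have h3 : IsIntegral A (algebraMap K L y) := by rw [hy]; exact b.2
      exact (isIntegral_algebraMap_iff (algebraMap K L).injective).1 h3
    obtain ⟨a, ha⟩ := (IsIntegrallyClosed.isIntegral_iff (R := A) (K := K)).1 h2
    refine ⟨a, Subtype.ext ?_⟩
    rw [← hy, ← ha]
    rfl⟩
  -- the prime of `B` below a valuation ring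
  have hle : ∀ w : ValuationSubring L, w.comap (algebraMap K L) = A → ∀ b : B, (b : L) ∈ w :=
    fun w hw b => integral_mem A w hw b b.2
  have hQ : ∀ w : ValuationSubring L, w.comap (algebraMap K L) = A →
      ∃ Q : Ideal B, Q.IsPrime ∧ Q.under A = P ∧ ∀ b : B, b ∈ Q ↔ (b : L) ∈ w.nonunits := by
    intro w hw
    let φ : B →+* w := (algebraMap B L).codRestrict w (hle w hw)
    have hmem : ∀ b : B, b ∈ (IsLocalRing.maximalIdeal w).comap φ ↔ (b : L) ∈ w.nonunits := by
      intro b
      rw [Ideal.mem_comap, ← ValuationSubring.coe_mem_nonunits_iff]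
      rfl
    refine ⟨(IsLocalRing.maximalIdeal w).comap φ, Ideal.IsPrime.comap φ, ?_, hmem⟩
    ext a
    rw [Ideal.mem_comap, hmem, ← ValuationSubring.coe_mem_nonunits_iff (A := A),
      ValuationSubring.mem_nonunits_iff_or, ValuationSubring.mem_nonunits_iff_or]
    have e1 : ((algebraMap A B a : B) : L) = algebraMap K L (a : K) := rfl
    rw [e1, ← map_inv₀, ← ValuationSubring.mem_comap, hw, map_eq_zero]
  obtain ⟨w₀, hw₀⟩ := exists_comap_eq (L := L) A
  obtain ⟨Q, hQprime, hQunder, hQmem⟩ := hQ w₀ hw₀
  have hlies : Q.LiesOver P := ⟨hQunder.symm⟩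
  have hPmax : P.IsMaximal := IsLocalRing.maximalIdeal.isMaximal A
  have hintB : Algebra.IsIntegral A B := Algebra.IsInvariant.isIntegral_of_profinite (G := Gal(L/K))
  have hQmax : Q.IsMaximal := Ideal.isMaximal_of_isIntegral_of_isMaximal_comap Q
    (by rw [show Q.comap (algebraMap A B) = P from hQunder]; exact hPmax)
  have hPfin : Finite (A ⧸ P) := inferInstanceAs (Finite (IsLocalRing.ResidueField A))
  have hcardeq : Nat.card (A ⧸ P) = Nat.card (IsLocalRing.ResidueField A) := rfl
  obtain ⟨p, hc⟩ := CharP.exists (A ⧸ P)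
  cases nonempty_fintype (A ⧸ P)
  obtain ⟨r, hp, hr⟩ := FiniteField.card (A ⧸ P) p
  have hcB : CharP (B ⧸ Q) p :=
    CharP.of_ringHom_of_ne_zero (algebraMap (A ⧸ P) (B ⧸ Q)) p hp.ne_zero
  have hexp : ExpChar (B ⧸ Q) p := .prime hp
  have halg : Algebra.IsAlgebraic (A ⧸ P) (B ⧸ Q) := by
    have : Algebra.IsIntegral (A ⧸ P) (B ⧸ Q) := Ideal.Quotient.algebra_isIntegral_of_liesOver Q P
    exact this.isAlgebraic
  have hperf : PerfectField (B ⧸ Q) := Algebra.IsAlgebraic.perfectField (A ⧸ P)
  have hperfR : PerfectRing (B ⧸ Q) p :=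
    @PerfectField.toPerfectRing (B ⧸ Q) (Ideal.Quotient.field Q) hperf p hexp
  let l : (B ⧸ Q) ≃ₐ[A ⧸ P] B ⧸ Q :=
    { __ := iterateFrobeniusEquiv (B ⧸ Q) p r,
      commutes' a := by
        dsimp [iterateFrobenius_def]
        rw [← map_pow, ← hr, FiniteField.pow_card] }
  obtain ⟨σ, hσ⟩ := Ideal.Quotient.stabilizerHom_surjective_of_profinite (G := Gal(L/K)) P Q l
  have hσQ : ∀ b : B, (σ : Gal(L/K)) • b - b ^ Nat.card (IsLocalRing.ResidueField A) ∈ Q := by
    intro b
    rw [← Ideal.Quotient.eq, ← hcardeq, Nat.card_eq_fintype_card, hr]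
    exact DFunLike.congr_fun hσ (Ideal.Quotient.mk Q b)
  refine ⟨σ, fun w hw b hb => ?_⟩
  obtain ⟨Q', hQ'prime, hQ'under, hQ'mem⟩ := hQ w hw
  obtain ⟨τ, hτ⟩ := Algebra.IsInvariant.exists_smul_of_under_eq_of_profinite (A := A)
    (G := Gal(L/K)) Q Q' (hQunder.trans hQ'under.symm)
  set b' : B := ⟨b, hb⟩ with hb'
  have h1 : (σ : Gal(L/K)) • b' - b' ^ Nat.card (IsLocalRing.ResidueField A) ∈ Q' := by
    have e0 : τ⁻¹ • ((σ : Gal(L/K)) • b') = (σ : Gal(L/K)) • (τ⁻¹ • b') := by
      apply Subtype.ext
      rw [hsmul, hsmul, hsmul, hsmul]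
      exact DFunLike.congr_fun (hcomm τ⁻¹ σ) (b' : L)
    rw [hτ, Ideal.mem_pointwise_smul_iff_inv_smul_mem, smul_sub, smul_pow', e0]
    exact hσQ (τ⁻¹ • b')
  rw [hQ'mem] at h1
  have e1 : (((σ : Gal(L/K)) • b' - b' ^ Nat.card (IsLocalRing.ResidueField A) : B) : L)
      = (σ : Gal(L/K)) b - b ^ Nat.card (IsLocalRing.ResidueField A) := by
    push_cast
    rw [hsmul]
  rwa [e1] at h1

/-- Existence of the Frobenius element at a closed point, in an abelian extension. -/
lemma exists_isFrobenius {k : Type*} [Field k] [Finite k] [Algebra k K] [IsGalois K L]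
    (hK : IsCurveFunctionField k K) (hcomm : ∀ σ τ : Gal(L/K), σ * τ = τ * σ)
    (x : ClosedPoint k K) : ∃ σ : Gal(L/K), x.IsFrobenius σ := by
  have hfin : Finite x.residueField := by
    let _ : Algebra k x.residueField := x.constants.toAlgebra
    have := finite_residueField hK.finitelyGenerated hK.trdeg_eq_one x
    exact Module.finite_of_finite k
  obtain ⟨σ, hσ⟩ := exists_frobenius_integral hcomm x.ring
  refine ⟨σ, fun w hw f hf => ?_⟩
  obtain ⟨s, hs1, hs2, hs3⟩ := exists_denominator x.ring w hw f hf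
  set q := Nat.card x.residueField with hq
  have h1 := hσ w hw s hs1
  have h2 := hσ w hw (s * f) hs2
  have hsw : s ∈ w := integral_mem x.ring w hw s hs1
  rw [ValuationSubring.mem_nonunits_iff] at h1 h2 hs3 ⊢
  have hvs : w.valuation s = 1 :=
    le_antisymm ((w.valuation_le_one_iff _).2 hsw) (not_lt.1 hs3)
  have hvσs : w.valuation (σ s) = 1 := by
    have e : σ s = s ^ q + (σ s - s ^ q) := by ring
    have h3 : w.valuation (σ s - s ^ q) < w.valuation (s ^ q) := by
      rw [map_pow, hvs, one_pow]; exact h1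
    rw [e, Valuation.map_add_eq_of_lt_left _ h3, map_pow, hvs, one_pow]
  have hkey : (σ f - f ^ q) * σ s = (σ (s * f) - (s * f) ^ q) - f ^ q * (σ s - s ^ q) := by
    rw [map_mul]; ring
  have h4 : w.valuation ((σ f - f ^ q) * σ s) < 1 := by
    rw [hkey]
    refine lt_of_le_of_lt (Valuation.map_sub _ _ _) (max_lt h2 ?_)
    rw [map_mul]
    have h5 : w.valuation (f ^ q) ≤ 1 := (w.valuation_le_one_iff _).2 (pow_mem hf _)
    calc w.valuation (f ^ q) * w.valuation (σ s - s ^ q)
        ≤ 1 * w.valuation (σ s - s ^ q) := mul_le_mul_left h5 _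
      _ = _ := one_mul _
      _ < 1 := h1
  rwa [map_mul, hvσs, mul_one] at h4

/-- Uniqueness of the Frobenius element at an unramified closed point. -/
lemma isFrobenius_unique {k : Type*} [Field k] [Algebra k K] (x : ClosedPoint k K)
    (hx : x.IsUnramified L) (σ τ : Gal(L/K)) (hσ : x.IsFrobenius σ) (hτ : x.IsFrobenius τ) :
    σ = τ := by
  obtain ⟨w, hw⟩ := exists_comap_eq (L := L) x.ring
  have h1 : τ⁻¹ * σ = 1 := by
    apply hx w hw
    intro f hf
    have h2 := hσ w hw f hf
    have h3 := hτ w hw f hf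
    have h4 : σ f - τ f ∈ w.nonunits := by
      rw [ValuationSubring.mem_nonunits_iff] at h2 h3 ⊢
      have e : σ f - τ f = (σ f - f ^ Nat.card x.residueField)
          - (τ f - f ^ Nat.card x.residueField) := by ring
      rw [e]
      exact lt_of_le_of_lt (Valuation.map_sub _ _ _) (max_lt h2 h3)
    -- `τ` maps `w` into itself
    have h5 : ∀ g ∈ w, τ g ∈ w := by
      intro g hg
      have h6 := hτ w hw g hg
      have h7 : τ g = (τ g - g ^ Nat.card x.residueField) + g ^ Nat.card x.residueField := by ring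
      rw [h7]
      exact add_mem (w.nonunits_subset h6) (pow_mem hg _)
    set g := (τ⁻¹ * σ) f - f with hg
    have hτg : τ g = σ f - τ f := by
      rw [hg, map_sub]
      congr 1
      change τ (τ.symm (σ f)) = σ f
      exact τ.apply_symm_apply _
    rw [← hτg, ValuationSubring.mem_nonunits_iff_or] at h4
    rw [ValuationSubring.mem_nonunits_iff_or]
    rcases h4 with h4 | h4
    · left; exact (map_eq_zero τ).1 h4
    · right
      intro h6
      apply h4
      rw [← map_inv₀]
      exact h5 _ h6
  have h8 : σ = τ * (τ⁻¹ * σ) := by group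
  rw [h8, h1, mul_one]

/-- In a `ℤ_p`-tower every closed point outside `S` has exactly one Frobenius element. -/
theorem existsUnique_isFrobenius {p : ℕ} [Fact p.Prime] {k : Type*} [Field k] [Finite k]
    [Algebra k K] (hK : IsCurveFunctionField k K) (T : ZpTower p k K L) (x : ClosedPoint k K)
    (hx : x ∉ T.S) : ∃! σ : Gal(L/K), x.IsFrobenius σ := by
  have := T.isGalois
  have hcomm : ∀ σ τ : Gal(L/K), σ * τ = τ * σ := by
    intro σ τ
    apply T.galEquiv.injective
    rw [map_mul, map_mul, mul_comm]
  obtain ⟨σ, hσ⟩ := exists_isFrobenius hK hcomm x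
  exact ⟨σ, hσ, fun τ hτ => isFrobenius_unique x (T.unramified x hx) τ σ hτ hσ⟩

theorem isFrobenius_frob {p : ℕ} [Fact p.Prime] {k : Type*} [Field k] [Finite k]
    [Algebra k K] (hK : IsCurveFunctionField k K) (T : ZpTower p k K L) (x : ClosedPoint k K)
    (hx : x ∉ T.S) : x.IsFrobenius (ZpTower.frob x : Gal(L/K)) :=
  Classical.epsilon_spec (existsUnique_isFrobenius hK T x hx).exists

end Pool.Agent.Helper93
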