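import Mathlib
import Pool.Agent.Helper93.WanDefs
import Pool.Agent.Helper93.Places
import Pool.Agent.Helper93.Euler

set_option autoImplicit false

namespace Pool.Agent.Helper93

open Polynomial

/-- If a polynomial with constant term `1` over an algebraically closed field is given, its
coefficients lie in the field generated by its roots. -/
lemma coeff_mem_adjoin_roots {k E : Type*} [Field k] [Field E] [Algebra k E] [IsAlgClosed E]
    (P : Polynomial E) (hP : P.coeff 0 = 1) (m : ℕ) :
    P.coeff m ∈ IntermediateField.adjoin k {z : E | P.IsRoot z} := by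
  set F := IntermediateField.adjoin k {z : E | P.IsRoot z} with hF
  have hP0 : P ≠ 0 := by rintro rfl; simp at hP
  have hsplit : P.Splits := IsAlgClosed.splits P
  have h1 : P = C P.leadingCoeff * (P.roots.map fun a => X - C a).prod :=
    hsplit.eq_prod_roots
  have hroots : ∀ a ∈ P.roots, a ∈ F := by
    intro a ha
    apply IntermediateField.subset_adjoin
    exact (mem_roots hP0).1 ha
  -- the product of the linear factors has coefficients in `F`
  have h2 : ∀ s : Multiset E, (∀ a ∈ s, a ∈ F) →
      ∃ Q : Polynomial F, Q.map (algebraMap F E) = (s.map fun a => X - C a).prod := by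
    intro s
    induction s using Multiset.induction with
    | empty => intro _; exact ⟨1, by simp⟩
    | cons a s ih =>
      intro h
      obtain ⟨Q, hQ⟩ := ih fun b hb => h b (Multiset.mem_cons_of_mem hb)
      refine ⟨(X - C ⟨a, h a (Multiset.mem_cons_self a s)⟩) * Q, ?_⟩
      rw [Polynomial.map_mul, hQ, Multiset.map_cons, Multiset.prod_cons]
      simp
  obtain ⟨Q, hQ⟩ := h2 P.roots hroots
  rw [← hQ] at h1
  have h3 : P.leadingCoeff * algebraMap F E (Q.coeff 0) = 1 := by
    have := congrArg (fun q : Polynomial E => q.coeff 0) h1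
    simp only [coeff_C_mul, coeff_map] at this
    rw [← this, hP]
  have h4 : P.leadingCoeff ∈ F := by
    have h5 : P.leadingCoeff = (algebraMap F E (Q.coeff 0))⁻¹ := eq_inv_of_mul_eq_one_left h3
    rw [h5]
    exact inv_mem (Q.coeff 0).2
  rw [h1, coeff_C_mul, coeff_map]
  exact mul_mem h4 (Q.coeff m).2

/-- The degree of an element of a field generated by finitely many algebraic elements is at most
the degree of that field. -/
lemma natDegree_minpoly_le {k E : Type*} [Field k] [Field E] [Algebra k E]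
    (P : Polynomial E) (hP0 : P ≠ 0) (halg : ∀ m, IsIntegral k (P.coeff m)) (c : E)
    (hc : c ∈ IntermediateField.adjoin k {z : E | P.IsRoot z}) :
    (minpoly k c).natDegree
      ≤ Module.finrank k (IntermediateField.adjoin k {z : E | P.IsRoot z}) := by
  have hroot : ∀ z ∈ {z : E | P.IsRoot z}, IsIntegral k z := by
    intro z hz
    -- `P` has coefficients in the algebraic closure `A` of `k` in `E`
    let A := algebraicClosure k E
    have hA : ∀ m, P.coeff m ∈ A := fun m => by
      rw [mem_algebraicClosure_iff]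
      exact (halg m).isAlgebraic
    have hlift : P ∈ Polynomial.lifts (algebraMap A E) := by
      rw [Polynomial.lifts_iff_coeff_lifts]
      intro m
      exact ⟨⟨P.coeff m, hA m⟩, rfl⟩
    obtain ⟨Q, hQ⟩ := hlift
    have hQ' : Q.map (algebraMap A E) = P := hQ
    have hQ0 : Q ≠ 0 := by
      rintro rfl
      apply hP0
      rw [← hQ', Polynomial.map_zero]
    have hz' : IsAlgebraic A z := by
      refine ⟨Q, hQ0, ?_⟩
      rw [aeval_def, ← eval_map, hQ']
      exact hz
    have : Algebra.IsAlgebraic k A := algebraicClosure.isAlgebraic k E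
    exact (hz'.restrictScalars k).isIntegral
  classical
  have hfin : Finite {z : E | P.IsRoot z} := by
    have : {z : E | P.IsRoot z} ⊆ (P.roots.toFinset : Set E) := by
      intro z hz
      simpa using ⟨hP0, hz⟩
    exact (P.roots.toFinset.finite_toSet.subset this).to_subtype
  have : FiniteDimensional k (IntermediateField.adjoin k {z : E | P.IsRoot z}) :=
    IntermediateField.finiteDimensional_adjoin hroot
  have h1 := minpoly.natDegree_le (A := k)
    (⟨c, hc⟩ : IntermediateField.adjoin k {z : E | P.IsRoot z})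
  have h2 : minpoly k (⟨c, hc⟩ : IntermediateField.adjoin k {z : E | P.IsRoot z}) = minpoly k c :=
    IntermediateField.minpoly_eq _
  rwa [h2] at h1

section

variable {p : ℕ} [hp : Fact p.Prime] {k K L : Type*} [Field k] [Finite k] [Field K]
  [Algebra k K] [Field L] [Algebra K L]

/-- The coefficients of the `L`-function as values of universal elements of `ℕ[ℤ_p]`. -/
lemma coeff_LFunction (hK : IsCurveFunctionField k K) (T : ZpTower p k K L) :
    ∃ (B : ℕ → Finset (ClosedPoint k K)), (∀ m x, x ∈ B m ↔ x ∉ T.S ∧ x.deg ≤ m) ∧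
      ∀ (χ : Gal(L/K) →* ℂ_[p]ˣ) (m : ℕ), PowerSeries.coeff m (T.LFunction χ)
        = evalChar ((Units.coeHom ℂ_[p]).comp
            (χ.comp (T.galEquiv.symm : Multiplicative ℤ_[p] ≃* Gal(L/K)).toMonoidHom))
          (PowerSeries.coeff m (univEuler (B m) ClosedPoint.deg
            fun x => Multiplicative.toAdd (T.galEquiv (ZpTower.frob x)))) := by
  have hfin : ∀ m, {x : ClosedPoint k K | x ∉ T.S ∧ x.deg ≤ m}.Finite := fun m =>
    (finite_deg_le hK.finitelyGenerated hK.trdeg_eq_one m).subset fun x hx => hx.2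
  refine ⟨fun m => (hfin m).toFinset, fun m x => by simp, fun χ m => ?_⟩
  rw [← PowerSeries.coeff_map, map_univEuler _ _ _
    (fun x _ => deg_pos hK.finitelyGenerated hK.trdeg_eq_one x)]
  rw [ZpTower.LFunction, PowerSeries.coeff_mk]
  congr 1
  have h1 := finprod_mem_eq_finite_toFinset_prod
    (fun x : ClosedPoint k K =>
      (1 - PowerSeries.C (χ (ZpTower.frob x) : ℂ_[p]) * PowerSeries.X ^ x.deg)⁻¹) (hfin m)
  refine Eq.trans h1 ?_
  apply Finset.prod_congr rfl
  intro x _
  have hsymm : (T.galEquiv.symm : Multiplicative ℤ_[p] ≃* Gal(L/K))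
      (T.galEquiv (ZpTower.frob x)) = ZpTower.frob x :=
    T.galEquiv.symm_apply_apply (ZpTower.frob x)
  simp [hsymm]

theorem wan_main (hK : IsCurveFunctionField k K) (T : ZpTower p k K L) :
    ∃ C : ℕ, ∀ n : ℕ, 1 ≤ n → ∀ χ : Gal(L/K) →* ℂ_[p]ˣ, orderOf χ = p ^ n →
      ∀ P : Polynomial ℂ_[p], (P : PowerSeries ℂ_[p]) = T.LFunction χ →
        p ^ n ≤ C * Module.finrank ℚ_[p]
          (IntermediateField.adjoin ℚ_[p] {z : ℂ_[p] | P.IsRoot z}) := by
  obtain ⟨B, hB, hcoeff⟩ := coeff_LFunction hK T
  set F : ClosedPoint k K → ℤ_[p] :=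
    fun x => Multiplicative.toAdd (T.galEquiv (ZpTower.frob x)) with hF
  -- the character of `ℤ_p` attached to `χ`
  set c : (Gal(L/K) →* ℂ_[p]ˣ) → (Multiplicative ℤ_[p] →* ℂ_[p]ˣ) := fun χ =>
    χ.comp (T.galEquiv.symm : Multiplicative ℤ_[p] ≃* Gal(L/K)).toMonoidHom with hc
  have hcinj : ∀ χ : Gal(L/K) →* ℂ_[p]ˣ, ∀ l : ℕ, c χ ^ l = 1 ↔ χ ^ l = 1 := by
    intro χ l
    constructor
    · intro h
      refine MonoidHom.ext fun σ => ?_
      have h1 := DFunLike.congr_fun h (T.galEquiv σ)
      have h2 : c χ (T.galEquiv σ) = χ σ := congrArg χ (T.galEquiv.symm_apply_apply σ)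
      rw [MonoidHom.pow_apply, h2] at h1
      exact h1
    · intro h
      refine MonoidHom.ext fun σ => ?_
      exact DFunLike.congr_fun h (T.galEquiv.symm σ)
  have horder : ∀ χ : Gal(L/K) →* ℂ_[p]ˣ, ∀ n, orderOf χ = p ^ n → orderOf (c χ) = p ^ n := by
    intro χ n h
    rw [← h]
    exact orderOf_eq_orderOf_iff.2 (hcinj χ)
  have hexp : ∀ χ : Gal(L/K) →* ℂ_[p]ˣ, ∀ n, orderOf χ = p ^ n → ∀ m,
      PowerSeries.coeff m (T.LFunction χ)
        = expSum (PowerSeries.coeff m (univEuler (B m) ClosedPoint.deg F)).coeff.support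
          (PowerSeries.coeff m (univEuler (B m) ClosedPoint.deg F)).coeff n
          (c χ (Multiplicative.ofAdd 1) : ℂ_[p]) 1 := by
    intro χ n hn m
    rw [hcoeff, evalChar_apply, expSum]
    apply Finset.sum_congr rfl
    intro v _
    rw [one_mul]
    congr 1
    exact char_apply (c χ) ((hcinj χ _).2 (by rw [← hn]; exact pow_orderOf_eq_one χ)) v
  have hcoeffint : ∀ χ : Gal(L/K) →* ℂ_[p]ˣ, ∀ n, orderOf χ = p ^ n → ∀ m,
      IsIntegral ℚ_[p] (PowerSeries.coeff m (T.LFunction χ)) := by
    intro χ n hn m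
    rw [hexp χ n hn m]
    have hζ := char_isPrimitiveRoot (c χ) (horder χ n hn)
    have hζint : IsIntegral ℚ_[p] ((c χ (Multiplicative.ofAdd 1) : ℂ_[p])) := by
      refine IsIntegral.of_pow (n := p ^ n) (pow_pos hp.out.pos _) ?_
      rw [hζ.pow_eq_one]; exact isIntegral_one
    unfold expSum
    apply IsIntegral.sum
    intro v _
    have h1 := isIntegral_algebraMap (R := ℚ_[p]) (A := ℂ_[p])
      (x := (((PowerSeries.coeff m (univEuler (B m) ClosedPoint.deg F)).coeff v : ℕ) : ℚ_[p]))
    rw [map_natCast] at h1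
    exact h1.mul (hζint.pow _)
  by_cases hcase : ∃ x₀ : ClosedPoint k K, x₀ ∉ T.S ∧ F x₀ ≠ 0
  · obtain ⟨x₀, hx₀, hFx₀⟩ := hcase
    set m := x₀.deg with hm
    set U := (PowerSeries.coeff m (univEuler (B m) ClosedPoint.deg F)) with hU
    have hmem : F x₀ ∈ U.coeff.support := by
      rw [Finsupp.mem_support_iff]
      have h1 := one_le_coeff_univEuler (B m) ClosedPoint.deg F x₀
        ((hB m x₀).2 ⟨hx₀, le_refl _⟩)
        (deg_pos hK.finitelyGenerated hK.trdeg_eq_one x₀) 1
      rw [mul_one, one_smul] at h1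
      have h2 : 1 ≤ U.coeff (F x₀) := h1
      omega
    obtain ⟨C, hC⟩ := exists_degree_bound U.coeff.support U.coeff
      (fun v hv => Nat.pos_of_ne_zero (Finsupp.mem_support_iff.1 hv)) (F x₀) hmem hFx₀
    refine ⟨p ^ C, fun n hn χ hχ P hP => ?_⟩
    have hζ := char_isPrimitiveRoot (c χ) (horder χ n hχ)
    refine (hC ℂ_[p] n hn _ hζ).trans (Nat.mul_le_mul_left _ ?_)
    rw [← hexp χ n hχ m]
    have hPc : ∀ m, P.coeff m = PowerSeries.coeff m (T.LFunction χ) := by
      intro m; rw [← hP, Polynomial.coeff_coe]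
    have hP0 : P.coeff 0 = 1 := by
      rw [hPc, hcoeff, coeff_zero_univEuler, map_one]
    have hPne : P ≠ 0 := by rintro rfl; simp at hP0
    rw [← hPc]
    exact natDegree_minpoly_le P hPne (fun m => by rw [hPc]; exact hcoeffint χ n hχ m) _
      (coeff_mem_adjoin_roots P hP0 m)
  · -- all Frobenius elements are trivial: the `L`-function is not a polynomial
    push Not at hcase
    obtain ⟨x₀, hx₀⟩ := exists_notMem_of_finite hK.finitelyGenerated hK.trdeg_eq_one T.S T.finite_S
    refine ⟨0, fun n hn χ hχ P hP => ?_⟩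
    exfalso
    have hd := deg_pos hK.finitelyGenerated hK.trdeg_eq_one x₀
    have key : ∀ j : ℕ, P.coeff (x₀.deg * j) ≠ 0 ∨ j = 0 := by
      intro j
      rcases Nat.eq_zero_or_pos j with h | hj
      · exact Or.inr h
      left
      set m := x₀.deg * j with hm
      have hmB : x₀ ∈ B m := (hB m x₀).2 ⟨hx₀, by rw [hm]; exact Nat.le_mul_of_pos_right _ hj⟩
      have h1 : P.coeff m = PowerSeries.coeff m (T.LFunction χ) := by
        rw [← hP, Polynomial.coeff_coe]
      rw [h1, hcoeff, ← PowerSeries.coeff_map, map_univEuler _ _ _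
        (fun x _ => deg_pos hK.finitelyGenerated hK.trdeg_eq_one x)]
      have h2 : ∏ x ∈ B m, (1 - PowerSeries.C (((Units.coeHom ℂ_[p]).comp (c χ))
            (Multiplicative.ofAdd (F x))) * PowerSeries.X ^ x.deg)⁻¹
          = PowerSeries.map (evalChar (1 : Multiplicative ℤ_[p] →* ℂ_[p]))
            (univEuler (B m) ClosedPoint.deg F) := by
        rw [map_univEuler _ _ _ (fun x _ => deg_pos hK.finitelyGenerated hK.trdeg_eq_one x)]
        apply Finset.prod_congr rfl
        intro x hx
        rw [hcase x ((hB m x).1 hx).1]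
        simp
      rw [show ((Units.coeHom ℂ_[p]).comp (χ.comp
        (T.galEquiv.symm : Multiplicative ℤ_[p] ≃* Gal(L/K)).toMonoidHom))
          = (Units.coeHom ℂ_[p]).comp (c χ) from rfl, h2, PowerSeries.coeff_map, evalChar_apply]
      simp only [MonoidHom.one_apply, mul_one]
      rw [← Nat.cast_sum, Nat.cast_ne_zero]
      have h3 := one_le_coeff_univEuler (B m) ClosedPoint.deg F x₀ hmB hd j
      intro h4
      rw [Finset.sum_eq_zero_iff] at h4
      have h5 : (PowerSeries.coeff m (univEuler (B m) ClosedPoint.deg F)).coeff (j • F x₀) ≠ 0 := by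
        have : 1 ≤ (PowerSeries.coeff m (univEuler (B m) ClosedPoint.deg F)).coeff (j • F x₀) := h3
        omega
      exact h5 (h4 _ (Finsupp.mem_support_iff.2 h5))
    rcases key (P.natDegree + 1) with h | h
    · apply h
      apply Polynomial.coeff_eq_zero_of_natDegree_lt
      calc P.natDegree < P.natDegree + 1 := Nat.lt_succ_self _
        _ ≤ x₀.deg * (P.natDegree + 1) := Nat.le_mul_of_pos_left _ hd
    · omega

end

end Pool.Agent.Helper93
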